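import Pool.Agent.H886R2.Eps.Normal

/-!
# Charts of the boundary of a convex body
-/

set_option autoImplicit false

open MeasureTheory Set Metric Module
open scoped ENNReal NNReal

namespace Pool.Agent.H886R2.Eps

variable {K : Set E3}

/-- the projection along `e` does not shorten much the distances in a chart -/
lemma Chart.le_norm (hK : IsConvexBody K) {x e : E3} {c r : ℝ} (h : Chart K x e c r)
    (F : Frame e) {y z : E3} (hy : y ∈ frontier K) (hz : z ∈ frontier K) (hyr : dist y x < r)
    (hzr : dist z x < r) : c * ‖y - z‖ ≤ ‖F.p (y - z)‖ := by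
  rcases le_total (0 : ℝ) (inner ℝ e (y - z)) with h0 | h0
  · obtain ⟨u, hu⟩ := hK.exists_normal hz
    exact F.key h.c_pos hu.1 (h.normal z hz hzr u hu) h0 (hu.2 y (hK.frontier_subset hy))
  · obtain ⟨u, hu⟩ := hK.exists_normal hy
    have h1 : (0 : ℝ) ≤ inner ℝ e (z - y) := by
      have : inner ℝ e (z - y) = - (inner ℝ e (y - z) : ℝ) := by
        rw [← inner_neg_right]
        congr 1
        abel
      rw [this]
      linarith
    have h2 := F.key h.c_pos hu.1 (h.normal y hy hyr u hu) h1 (hu.2 z (hK.frontier_subset hz))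
    rw [norm_sub_rev y z]
    have e1 : F.p (y - z) = - F.p (z - y) := by
      rw [← map_neg]
      congr 1
      abel
    rw [e1, norm_neg]
    exact h2

lemma Chart.c_le_one (hK : IsConvexBody K) {x e : E3} {c r : ℝ} (h : Chart K x e c r) :
    c ≤ 1 := by
  obtain ⟨u, hu⟩ := hK.exists_normal h.mem
  have h1 := h.normal x h.mem (by simpa using h.r_pos) u hu
  have h2 := real_inner_le_norm e u
  rw [h.norm_e, hu.1, one_mul] at h2
  linarith

/-- the projection of a chart covers a disc -/
lemma Chart.surj (hK : IsConvexBody K) {x e : E3} {c r : ℝ} (h : Chart K x e c r)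
    (F : Frame e) {q : ℂ} (hq : ‖q‖ * (1 + c⁻¹) < r) :
    ∃ y ∈ frontier K, dist y x < r ∧ F.p (y - x) = q := by
  have hxK := hK.frontier_subset h.mem
  have hc := h.c_pos
  by_cases hq0 : q = 0
  · exact ⟨x, h.mem, by simpa using h.r_pos, by simp [hq0]⟩
  have hqn : 0 < ‖q‖ := norm_pos_iff.2 hq0
  set t : ℝ := ‖q‖ * c⁻¹ with ht
  have ht0 : 0 < t := by positivity
  have hnorm : ∀ s : ℝ, |s| ≤ t → ‖F.j q + s • e‖ < r := by
    intro s hs
    refine (norm_add_le _ _).trans_lt ?_
    rw [F.norm_j, norm_smul, h.norm_e, mul_one, Real.norm_eq_abs]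
    calc ‖q‖ + |s| ≤ ‖q‖ + t := by linarith
      _ = ‖q‖ * (1 + c⁻¹) := by rw [ht]; ring
      _ < r := hq
  -- the lower point belongs to `K`
  have hlow : x + (F.j q + (-t) • e) ∈ K := by
    by_contra hcon
    obtain ⟨P, hP, hP2⟩ := hK.exists_proj
    set a := x + (F.j q + (-t) • e) with ha
    set y := P a with hy
    have hyf : y ∈ frontier K := proj_mem_frontier hP hP2 fun h' => hcon (interior_subset h')
    have hu := proj_normal hP hP2 hcon
    rw [← hy] at hu
    set u := ‖a - y‖⁻¹ • (a - y) with hudef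
    have hay : 0 < ‖a - y‖ := by
      rw [norm_pos_iff]
      intro h0
      exact hcon (by rw [sub_eq_zero.1 h0]; exact hP a)
    have hdist : dist y x < r := by
      have h1 := (proj_lipschitz hP hP2).dist_le_mul a x
      rw [NNReal.coe_one, one_mul, proj_self hP hP2 hxK, ← hy] at h1
      refine h1.trans_lt ?_
      rw [dist_eq_norm, ha, add_sub_cancel_left]
      exact hnorm (-t) (by rw [abs_neg, abs_of_pos ht0])
    have hs := h.normal y hyf hdist u hu
    -- `⟨a - x, u⟩ > 0`
    have h2 : (0 : ℝ) < inner ℝ (a - x) u := by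
      have h3 : inner ℝ (a - x) u = (inner ℝ (a - y) u : ℝ) - inner ℝ (x - y) u := by
        rw [← inner_sub_left]
        congr 1
        abel
      have h4 : (inner ℝ (a - y) u : ℝ) = ‖a - y‖ := by
        rw [hudef, inner_smul_right, real_inner_self_eq_norm_sq]
        field_simp
      have h5 := hu.2 x hxK
      rw [h3, h4]
      linarith
    have h6 : inner ℝ (a - x) u = (inner ℝ (F.j q) u : ℝ) - t * inner ℝ e u := by
      rw [ha, add_sub_cancel_left, inner_add_left, inner_smul_left]
      simp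
      ring
    have h7 := (le_abs_self _).trans (F.abs_inner_j_le q u)
    have h8 : ‖F.p u‖ ≤ 1 := by
      have := F.norm_p_le u
      rwa [hu.1] at this
    have h9 : ‖q‖ ≤ t * inner ℝ e u := by
      calc ‖q‖ = t * c := by rw [ht]; field_simp
        _ ≤ t * inner ℝ e u := by gcongr
    nlinarith
  -- the upper point does not belong to `K`
  have hup : x + (F.j q + t • e) ∉ K := by
    intro hcon
    obtain ⟨u, hu⟩ := hK.exists_normal h.mem
    have hs := h.normal x h.mem (by simpa using h.r_pos) u hu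
    have h1 := hu.2 _ hcon
    rw [add_sub_cancel_left, inner_add_left, inner_smul_left] at h1
    simp only [conj_trivial] at h1
    have h2 := (neg_abs_le _).trans' (neg_le_neg (F.abs_inner_j_le q u))
    have h3 : ‖F.p u‖ ^ 2 = 1 - (inner ℝ e u : ℝ) ^ 2 := by
      rw [F.norm_p, hu.1]
      ring
    have hs0 : (0 : ℝ) < inner ℝ e u := hc.trans_le hs
    have h4 : ‖F.p u‖ < 1 := by
      by_contra h5
      push Not at h5
      nlinarith
    have h9 : ‖q‖ ≤ t * inner ℝ e u := by
      calc ‖q‖ = t * c := by rw [ht]; field_simp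
        _ ≤ t * inner ℝ e u := by gcongr
    nlinarith
  obtain ⟨y, hy, hyf⟩ := exists_frontier_segment hlow hup
  obtain ⟨a, b, ha, hb, hab, rfl⟩ := hy
  have e1 : a • (x + (F.j q + (-t) • e)) + b • (x + (F.j q + t • e)) =
      x + (F.j q + ((b - a) * t) • e) := by
    have : a • (x + (F.j q + (-t) • e)) + b • (x + (F.j q + t • e)) =
        (a + b) • x + ((a + b) • F.j q + ((b - a) * t) • e) := by
      module
    rw [this, hab, one_smul, one_smul]
  rw [e1] at hyf
  refine ⟨_, hyf, ?_, ?_⟩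
  · rw [dist_eq_norm, add_sub_cancel_left]
    apply hnorm
    rw [abs_mul, abs_of_pos ht0]
    have : |b - a| ≤ 1 := by
      rw [abs_le]
      constructor <;> linarith
    nlinarith
  · rw [add_sub_cancel_left, map_add, F.pj, map_smul]
    have : F.p e = 0 := by
      have h1 := F.norm_p e
      rw [h.norm_e, real_inner_self_eq_norm_sq, h.norm_e] at h1
      have h2 : ‖F.p e‖ ^ 2 = 0 := by rw [h1]; norm_num
      simpa using h2
    rw [this, smul_zero, add_zero]

/-- the inverse of the projection -/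
lemma Chart.exists_section (hK : IsConvexBody K) {x e : E3} {c r : ℝ} (h : Chart K x e c r)
    (F : Frame e) : ∃ σ : ℂ → E3, (∀ q, ‖q‖ * (1 + c⁻¹) < r →
        σ q ∈ frontier K ∧ dist (σ q) x < r ∧ F.p (σ q - x) = q) ∧
      (∀ q q', ‖q‖ * (1 + c⁻¹) < r → ‖q'‖ * (1 + c⁻¹) < r → dist (σ q) (σ q') ≤ c⁻¹ * dist q q') ∧
      (∀ y ∈ frontier K, dist y x < r → ‖F.p (y - x)‖ * (1 + c⁻¹) < r → σ (F.p (y - x)) = y) := by
  classical
  have hsel : ∀ q : ℂ, ∃ y, ‖q‖ * (1 + c⁻¹) < r → y ∈ frontier K ∧ dist y x < r ∧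
      F.p (y - x) = q := by
    intro q
    by_cases hq : ‖q‖ * (1 + c⁻¹) < r
    · obtain ⟨y, h1, h2, h3⟩ := h.surj hK F hq
      exact ⟨y, fun _ => ⟨h1, h2, h3⟩⟩
    · exact ⟨0, fun h' => absurd h' hq⟩
  choose σ hσ using hsel
  have hc := h.c_pos
  have key : ∀ y z, y ∈ frontier K → z ∈ frontier K → dist y x < r → dist z x < r →
      dist y z ≤ c⁻¹ * dist (F.p (y - x)) (F.p (z - x)) := by
    intro y z hy hz hyr hzr
    have h1 := h.le_norm hK F hy hz hyr hzr
    rw [dist_eq_norm, dist_eq_norm, ← map_sub, sub_sub_sub_cancel_right]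
    rw [inv_mul_eq_div, le_div_iff₀ hc]
    linarith
  refine ⟨σ, hσ, fun q q' hq hq' => ?_, fun y hy hyr hyq => ?_⟩
  · obtain ⟨h1, h2, h3⟩ := hσ q hq
    obtain ⟨h4, h5, h6⟩ := hσ q' hq'
    have := key _ _ h1 h4 h2 h5
    rwa [h3, h6] at this
  · obtain ⟨h1, h2, h3⟩ := hσ _ hyq
    have := key _ _ h1 hy h2 hyr
    rw [h3, dist_self, mul_zero] at this
    exact dist_le_zero.1 this

/-- Every boundary point has a chart, with uniform constants. -/
lemma IsConvexBody.exists_chart (hK : IsConvexBody K) : ∃ c r : ℝ, 0 < c ∧ 0 < r ∧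
    ∀ x ∈ frontier K, ∃ e, Chart K x e c r := by
  obtain ⟨o, ho⟩ := hK.interior_nonempty
  obtain ⟨ρ, hρ, hball⟩ := Metric.isOpen_iff.1 isOpen_interior o ho
  obtain ⟨R, hR⟩ := hK.compact.isBounded.subset_closedBall o
  set R' := max R 1 with hR'
  have hR'0 : 0 < R' := lt_of_lt_of_le one_pos (le_max_right _ _)
  refine ⟨ρ / 4 / R', ρ / 4, by positivity, by positivity, fun x hx => ?_⟩
  have hxo : x ≠ o := by
    rintro rfl
    exact hx.2 ho
  have hn : 0 < ‖x - o‖ := norm_pos_iff.2 (sub_ne_zero.2 hxo)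
  have hxR : ‖x - o‖ ≤ R' := by
    have := hR (hK.frontier_subset hx)
    rw [mem_closedBall, dist_eq_norm] at this
    exact this.trans (le_max_left _ _)
  refine ⟨‖x - o‖⁻¹ • (x - o), hx, ?_, by positivity, by positivity, ?_⟩
  · rw [norm_smul, norm_inv, norm_norm, inv_mul_cancel₀ hn.ne']
  · intro y hy hyx u hu
    have h1 : o + (ρ / 2) • u ∈ K := by
      apply interior_subset
      apply hball
      rw [mem_ball, dist_eq_norm, add_sub_cancel_left, norm_smul, hu.1, mul_one,
        Real.norm_eq_abs, abs_of_pos (by linarith)]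
      linarith
    have h2 := hu.2 _ h1
    have h3 : inner ℝ (o + (ρ / 2) • u - y) u = (ρ / 2 : ℝ) - inner ℝ (x - o) u -
        inner ℝ (y - x) u := by
      have e1 : o + (ρ / 2) • u - y = (ρ / 2) • u - (x - o) - (y - x) := by abel
      rw [e1, inner_sub_left, inner_sub_left, inner_smul_left, real_inner_self_eq_norm_sq, hu.1]
      simp
    have h4 : |(inner ℝ (y - x) u : ℝ)| ≤ ρ / 4 := by
      refine (abs_real_inner_le_norm _ _).trans ?_
      rw [hu.1, mul_one, ← dist_eq_norm]
      exact hyx.le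
    have h5 : ρ / 4 ≤ inner ℝ (x - o) u := by
      have := le_abs_self (inner ℝ (y - x) u : ℝ)
      rw [h3] at h2
      linarith
    rw [inner_smul_left]
    simp only [conj_trivial]
    rw [div_le_iff₀ hR'0]
    calc ρ / 4 ≤ inner ℝ (x - o) u := h5
      _ = ‖x - o‖⁻¹ * inner ℝ (x - o) u * ‖x - o‖ := by field_simp
      _ ≤ ‖x - o‖⁻¹ * inner ℝ (x - o) u * R' := by
        have : 0 ≤ ‖x - o‖⁻¹ * (inner ℝ (x - o) u : ℝ) := by
          have : (0 : ℝ) ≤ inner ℝ (x - o) u := by linarith
          positivity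
        gcongr

end Pool.Agent.H886R2.Eps
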