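import Pool.Agent.H886R2.Eps.Zigzag

/-!
# Connections in the boundary of a convex body, and a decomposition into small pieces
-/

set_option autoImplicit false

open MeasureTheory Set Metric Module Filter Topology
open scoped ENNReal NNReal

namespace Pool.Agent.H886R2.Eps

variable {K : Set E3}

/-- a unit vector orthogonal to two given vectors -/
lemma exists_orth (a b : E3) : ∃ c : E3, ‖c‖ = 1 ∧ inner ℝ a c = (0 : ℝ) ∧ inner ℝ b c = (0 : ℝ) := by
  set V := Submodule.span ℝ (range ![a, b]) with hV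
  have h1 : finrank ℝ V ≤ 2 := by
    have := finrank_range_le_card (R := ℝ) (b := ![a, b])
    simpa [Set.finrank] using this
  have h2 : Vᗮ ≠ ⊥ := by
    intro h
    have h3 := Submodule.finrank_add_finrank_orthogonal V
    rw [h, finrank_bot] at h3
    simp at h3
    omega
  obtain ⟨c, hc, hc0⟩ := Submodule.exists_mem_ne_zero_of_ne_bot h2
  have hn : 0 < ‖c‖ := norm_pos_iff.2 hc0
  have ha : inner ℝ a c = (0 : ℝ) :=
    (Submodule.mem_orthogonal V c).1 hc a (Submodule.subset_span ⟨0, rfl⟩)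
  have hb : inner ℝ b c = (0 : ℝ) :=
    (Submodule.mem_orthogonal V c).1 hc b (Submodule.subset_span ⟨1, rfl⟩)
  refine ⟨‖c‖⁻¹ • c, ?_, ?_, ?_⟩
  · rw [norm_smul, norm_inv, norm_norm, inv_mul_cancel₀ hn.ne']
  · rw [inner_smul_right, ha, mul_zero]
  · rw [inner_smul_right, hb, mul_zero]

/-- a segment far from the centre -/
lemma far_segment {o a c : E3} {R T : ℝ} (hT : 2 * R < T) (hR : 0 < R)
    (ha : ‖a‖ = 1) (hc : ‖c‖ = 1) (hac : inner ℝ a c = (0 : ℝ)) :
    ∀ z ∈ segment ℝ (o + T • a) (o + T • c), R < dist z o := by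
  rintro _ ⟨s, t, hs, ht, hst, rfl⟩
  have e1 : s • (o + T • a) + t • (o + T • c) - o = (T * s) • a + (T * t) • c := by
    have : s • (o + T • a) + t • (o + T • c) - o = (s + t - 1) • o + ((T * s) • a + (T * t) • c) := by
      module
    rw [this, hst]
    simp
  rw [dist_eq_norm, e1]
  have e2 : ‖(T * s) • a + (T * t) • c‖ ^ 2 = (T * s) ^ 2 + (T * t) ^ 2 := by
    rw [norm_add_sq_real, inner_smul_left, inner_smul_right, hac, norm_smul, norm_smul, ha, hc]
    simp [mul_pow, sq_abs]
  have h3 : R ^ 2 < (T * s) ^ 2 + (T * t) ^ 2 := by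
    have h4 : s ^ 2 + t ^ 2 ≥ 1 / 2 := by nlinarith [sq_nonneg (s - t)]
    have h5 : (2 * R) ^ 2 < T ^ 2 := by
      apply pow_lt_pow_left₀ hT (by positivity) two_ne_zero
    have h6 : (T * s) ^ 2 + (T * t) ^ 2 = T ^ 2 * (s ^ 2 + t ^ 2) := by ring
    rw [h6]
    nlinarith [sq_nonneg R]
  rw [← e2] at h3
  exact lt_of_pow_lt_pow_left₀ 2 (norm_nonneg _) h3

/-- any two boundary points are joined by a walk of bounded length in the boundary -/
lemma IsConvexBody.exists_walk (hK : IsConvexBody K) : ∃ D : ℝ, 0 ≤ D ∧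
    ∀ x ∈ frontier K, ∀ y ∈ frontier K, Walk (frontier K) D x y ∅ := by
  obtain ⟨o, ho⟩ := hK.interior_nonempty
  obtain ⟨R₀, hR₀⟩ := hK.compact.isBounded.subset_closedBall o
  obtain ⟨P, hP, hP2⟩ := hK.exists_proj
  set R := max R₀ 1 with hRdef
  have hR0 : 0 < R := lt_of_lt_of_le one_pos (le_max_right _ _)
  have hR : K ⊆ closedBall o R := hR₀.trans (closedBall_subset_closedBall (le_max_left _ _))
  set T := 3 * R with hT
  have hT0 : 0 < T := by positivity
  have key : ∀ x ∈ frontier K, ∀ y ∈ frontier K, Walk (interior K)ᶜ (6 * T) x y ∅ := by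
    intro x hx y hy
    have hdir : ∀ x ∈ frontier K, ∃ a : E3, ‖a‖ = 1 ∧ Walk (interior K)ᶜ T x (o + T • a) ∅ ∧
        Walk (interior K)ᶜ T (o + T • a) x ∅ := by
      intro x hx
      have hxo : x ≠ o := by
        rintro rfl
        exact hx.2 ho
      have hn : 0 < ‖x - o‖ := norm_pos_iff.2 (sub_ne_zero.2 hxo)
      have hxR : ‖x - o‖ ≤ R := by
        have := hR (hK.frontier_subset hx)
        rwa [mem_closedBall, dist_eq_norm] at this
      set a := ‖x - o‖⁻¹ • (x - o) with ha
      have hxa : x = o + ‖x - o‖ • a := by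
        rw [ha, smul_smul, mul_inv_cancel₀ hn.ne', one_smul]
        abel
      have ha1 : ‖a‖ = 1 := by
        rw [ha, norm_smul, norm_inv, norm_norm, inv_mul_cancel₀ hn.ne']
      have hseg : segment ℝ x (o + T • a) ⊆ (interior K)ᶜ := by
        rintro z ⟨s, t, hs, ht, hst, rfl⟩ hz
        -- `x` would be interior
        apply hx.2
        set u := s * ‖x - o‖ + t * T with hu
        have e1 : s • x + t • (o + T • a) = o + u • a := by
          conv_lhs => rw [hxa]
          have : s • (o + ‖x - o‖ • a) + t • (o + T • a) =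
              (s + t) • o + (s * ‖x - o‖ + t * T) • a := by module
          rw [this, hst, one_smul]
        have hu1 : ‖x - o‖ ≤ u := by
          have h1 : ‖x - o‖ ≤ T := by linarith
          have : s * ‖x - o‖ + t * ‖x - o‖ = ‖x - o‖ := by rw [← add_mul, hst, one_mul]
          nlinarith
        have hu0 : 0 < u := hn.trans_le hu1
        rw [e1] at hz
        have h2 := hK.convex.interior ho hz (a := 1 - ‖x - o‖ / u) (b := ‖x - o‖ / u)
          (by rw [sub_nonneg, div_le_one hu0]; exact hu1) (by positivity) (by ring)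
        have e2 : (1 - ‖x - o‖ / u) • o + (‖x - o‖ / u) • (o + u • a) = x := by
          have : (1 - ‖x - o‖ / u) • o + (‖x - o‖ / u) • (o + u • a) =
              o + (‖x - o‖ / u * u) • a := by module
          rw [this, div_mul_cancel₀ _ hu0.ne']
          exact hxa.symm
        rwa [e2] at h2
      have hd : dist x (o + T • a) ≤ T := by
        rw [dist_eq_norm]
        have : x - (o + T • a) = (‖x - o‖ - T) • a := by
          conv_lhs => rw [hxa]
          module
        rw [this, norm_smul, ha1, mul_one, Real.norm_eq_abs, abs_of_nonpos (by linarith)]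
        linarith
      refine ⟨a, ha1, (walk_segment _ _ hseg).mono hd (empty_subset _), ?_⟩
      rw [segment_symm] at hseg
      rw [dist_comm] at hd
      exact (walk_segment _ _ hseg).mono hd (empty_subset _)
    obtain ⟨a, ha, hwa, -⟩ := hdir x hx
    obtain ⟨b, hb, -, hwb⟩ := hdir y hy
    obtain ⟨c, hc, hac, hbc⟩ := exists_orth a b
    have hfar : ∀ a : E3, ‖a‖ = 1 → inner ℝ a c = (0 : ℝ) →
        segment ℝ (o + T • a) (o + T • c) ⊆ (interior K)ᶜ := by
      intro a ha hac z hz hzi
      have h1 := far_segment (by linarith) hR0 ha hc hac z hz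
      have h2 := hR (interior_subset hzi)
      rw [mem_closedBall] at h2
      linarith
    have hdist : ∀ a : E3, ‖a‖ = 1 → dist (o + T • a) (o + T • c) ≤ 2 * T := by
      intro a ha
      rw [dist_eq_norm, add_sub_add_left_eq_sub, ← smul_sub, norm_smul, Real.norm_eq_abs,
        abs_of_pos hT0]
      have : ‖a - c‖ ≤ 2 := by
        refine (norm_sub_le _ _).trans ?_
        rw [ha, hc]
        norm_num
      nlinarith
    have w1 := (walk_segment _ _ (hfar a ha hac)).mono (hdist a ha) (empty_subset _)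
    have h2 := hfar b hb hbc
    rw [segment_symm] at h2
    have h3 := hdist b hb
    rw [dist_comm] at h3
    have w2 := (walk_segment _ _ h2).mono h3 (empty_subset _)
    refine (((hwa.append w1).append w2).append hwb).mono (by linarith) (empty_subset _)
  refine ⟨6 * T, by positivity, fun x hx y hy => ?_⟩
  have h := (key x hx y hy).map (S' := frontier K) (σ := P) one_pos (fun p _ q _ => by
    simpa using (proj_lipschitz hP hP2).dist_le_mul p q)
    (fun p hp => proj_mem_frontier hP hP2 hp)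
  rw [proj_self hP hP2 (hK.frontier_subset hx), proj_self hP hP2 (hK.frontier_subset hy)] at h
  exact h.mono (by simp) (empty_subset _)

/-- concatenation of finitely many walks -/
lemma exists_concat {X ι : Type*} [PseudoMetricSpace X] [DecidableEq ι] {S : Set X} {D : ℝ}
    (hS : S.Nonempty)
    (hD : ∀ x ∈ S, ∀ y ∈ S, Walk S D x y ∅) (I : Finset ι) (ℓ : ι → ℝ) (T : ι → Set X)
    (h : ∀ i ∈ I, ∃ x y, Walk S (ℓ i) x y (T i)) :
    ∃ x y, Walk S (∑ i ∈ I, (ℓ i + D)) x y (⋃ i ∈ I, T i) := by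
  induction I using Finset.induction_on with
  | empty =>
    obtain ⟨x, hx⟩ := hS
    refine ⟨x, x, by simp, fun _ => x, (LipschitzWith.const _).weaken zero_le_one, fun _ => hx,
      rfl, rfl, by simp⟩
  | insert i I hi ih =>
    obtain ⟨x, y, hw⟩ := ih fun j hj => h j (Finset.mem_insert_of_mem hj)
    obtain ⟨x', y', hw'⟩ := h i (Finset.mem_insert_self _ _)
    have hmem : ∀ {ℓ : ℝ} {a b : X} {T : Set X}, Walk S ℓ a b T → a ∈ S ∧ b ∈ S := by
      rintro ℓ a b T ⟨-, f, -, hf, rfl, rfl, -⟩
      exact ⟨hf _, hf _⟩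
    have hc := hD y' (hmem hw').2 x (hmem hw).1
    refine ⟨x', y, ((hw'.append hc).append hw).mono ?_ ?_⟩
    · rw [Finset.sum_insert hi]
    · rw [Finset.set_biUnion_insert]
      intro z hz
      rcases hz with hz | hz
      · exact Or.inl (Or.inl hz)
      · exact Or.inr hz

/-- decomposition of a compact set into small compact pieces, disjoint up to null sets -/
lemma exists_pieces {S : Set E3} (hS : IsCompact S) (μ : Measure E3) (hμ : μ S < ⊤) {s : ℝ}
    (hs : 0 < s) : ∃ (n : ℕ) (F : Fin n → Set E3), (∀ k, IsCompact (F k)) ∧ (∀ k, F k ⊆ S) ∧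
      (∀ k, ∀ x ∈ F k, ∀ y ∈ F k, dist x y ≤ s) ∧ S ⊆ ⋃ k, F k ∧
      Pairwise (fun j k => μ (F j ∩ F k) = 0) := by
  classical
  -- radii with null spheres
  have hrad : ∀ x : E3, ∃ ρ : ℝ, 0 < ρ ∧ ρ < s / 2 ∧ μ (S ∩ sphere x ρ) = 0 := by
    intro x
    have hfin : IsFiniteMeasure (μ.restrict S) := ⟨by rwa [Measure.restrict_apply_univ]⟩
    have hcount : {ρ : ℝ | 0 < (μ.restrict S) (sphere x ρ)}.Countable := by
      apply Measure.countable_meas_pos_of_disjoint_iUnion
      · intro ρ
        exact isClosed_sphere.measurableSet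
      · intro ρ ρ' hne
        rw [Function.onFun, Set.disjoint_left]
        intro z hz hz'
        rw [mem_sphere] at hz hz'
        exact hne (hz.symm.trans hz')
    have hunc : ¬ (Ioo (0 : ℝ) (s / 2)).Countable := by
      intro h
      have h1 := h.measure_zero volume
      rw [Real.volume_Ioo] at h1
      simp at h1
      linarith
    obtain ⟨ρ, hρ, hρ'⟩ : ∃ ρ ∈ Ioo (0 : ℝ) (s / 2), ¬ 0 < (μ.restrict S) (sphere x ρ) := by
      by_contra hcon
      push Not at hcon
      exact hunc (hcount.mono hcon)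
    refine ⟨ρ, hρ.1, hρ.2, ?_⟩
    rw [not_lt, nonpos_iff_eq_zero, Measure.restrict_apply isClosed_sphere.measurableSet,
      inter_comm] at hρ'
    exact hρ'
  choose ρ hρ0 hρs hρn using hrad
  obtain ⟨t, -, hcov⟩ := hS.elim_nhds_subcover (fun x => ball x (ρ x))
    (fun x _ => ball_mem_nhds x (hρ0 x))
  let e := t.equivFin.symm
  let x : Fin t.card → E3 := fun k => (e k : E3)
  refine ⟨t.card, fun k => S ∩ closedBall (x k) (ρ (x k)) ∩ (⋃ j ∈ {j | j < k}, ball (x j) (ρ (x j)))ᶜ,
    ?_, ?_, ?_, ?_, ?_⟩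
  · intro k
    have h1 : IsClosed (⋃ j ∈ {j | j < k}, ball (x j) (ρ (x j)))ᶜ :=
      (isOpen_biUnion fun _ _ => isOpen_ball).isClosed_compl
    exact (hS.inter_right isClosed_closedBall).inter_right h1
  · exact fun k z hz => hz.1.1
  · intro k z hz w hw
    have h1 := hz.1.2
    have h2 := hw.1.2
    rw [mem_closedBall] at h1 h2
    have h3 := dist_triangle_right z w (x k)
    have h4 := hρs (x k)
    linarith
  · intro z hz
    obtain ⟨y, hy, hzy⟩ := mem_iUnion₂.1 (hcov hz)
    have hex : ∃ k : Fin t.card, z ∈ ball (x k) (ρ (x k)) := by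
      refine ⟨e.symm ⟨y, hy⟩, ?_⟩
      simp only [x, Equiv.apply_symm_apply]
      exact hzy
    obtain ⟨k, hk, hmin⟩ := WellFounded.has_min (wellFounded_lt (α := Fin t.card))
      {k | z ∈ ball (x k) (ρ (x k))} hex
    refine mem_iUnion.2 ⟨k, ⟨hz, ball_subset_closedBall hk⟩, ?_⟩
    intro h
    obtain ⟨j, hj, hzj⟩ := mem_iUnion₂.1 h
    exact hmin j hzj hj
  · have hlt : ∀ j k : Fin t.card, j < k → μ ((S ∩ closedBall (x j) (ρ (x j)) ∩
        (⋃ i ∈ {i | i < j}, ball (x i) (ρ (x i)))ᶜ) ∩ (S ∩ closedBall (x k) (ρ (x k)) ∩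
        (⋃ i ∈ {i | i < k}, ball (x i) (ρ (x i)))ᶜ)) = 0 := by
      intro j k hjk
      refine measure_mono_null ?_ (hρn (x j))
      rintro z ⟨⟨⟨hzS, hzj⟩, -⟩, -, hzk⟩
      refine ⟨hzS, ?_⟩
      rw [mem_closedBall] at hzj
      have h1 : z ∉ ball (x j) (ρ (x j)) := fun h => hzk (mem_iUnion₂.2 ⟨j, hjk, h⟩)
      rw [mem_ball, not_lt] at h1
      rw [mem_sphere]
      exact le_antisymm hzj h1
    intro j k hjk
    rcases lt_or_gt_of_ne hjk with h | h
    · exact hlt j k h
    · have := hlt k j h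
      rw [inter_comm] at this
      exact this

end Pool.Agent.H886R2.Eps
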