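import Mathlib

/-!
# Definitions: convex bodies in Euclidean 3-space, surface area, intrinsic distance,
epsilon-dense curves
-/

set_option autoImplicit false

open MeasureTheory Set
open scoped ENNReal

namespace Pool.Agent.H886R2.Eps

/-- Euclidean three-dimensional space. -/
abbrev E3 : Type := EuclideanSpace ℝ (Fin 3)

/-- A convex body: a compact convex set with non-empty interior. -/
structure IsConvexBody (K : Set E3) : Prop where
  convex : Convex ℝ K
  compact : IsCompact K
  interior_nonempty : (interior K).Nonempty

/-- The surface area of a subset of space: the two-dimensional Hausdorff measure, normalised so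
that the unit square of the Euclidean plane has area one. -/
noncomputable def area (X : Set E3) : ℝ≥0∞ :=
  μH[2] X / μH[2] {p : EuclideanSpace ℝ (Fin 2) | ∀ i, p i ∈ Icc (0 : ℝ) 1}

/-- The intrinsic distance of `x` and `y` in `S`: the infimum of the lengths of the paths in `S`
from `x` to `y`. -/
noncomputable def intrinsicDist (S : Set E3) (x y : E3) : ℝ≥0∞ :=
  ⨅ (c : ℝ → E3) (_ : ContinuousOn c (Icc 0 1) ∧ MapsTo c (Icc 0 1) S ∧ c 0 = x ∧ c 1 = y),
    eVariationOn c (Icc 0 1)

/-- `c` (restricted to `[0,1]`) is a rectifiable curve in `S` such that every point of `S` lies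
within intrinsic distance `ε` of some point of the curve. -/
structure IsDenseCurve (S : Set E3) (ε : ℝ) (c : ℝ → E3) : Prop where
  continuous : ContinuousOn c (Icc 0 1)
  mapsTo : MapsTo c (Icc 0 1) S
  rectifiable : eVariationOn c (Icc 0 1) ≠ ⊤
  dense : ∀ x ∈ S, ∃ t ∈ Icc (0 : ℝ) 1, intrinsicDist S x (c t) ≤ ENNReal.ofReal ε

/-- The infimum of the lengths of the `ε`-dense rectifiable curves in `S`. -/
noncomputable def minLength (S : Set E3) (ε : ℝ) : ℝ≥0∞ :=
  ⨅ (c : ℝ → E3) (_ : IsDenseCurve S ε c), eVariationOn c (Icc 0 1)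

end Pool.Agent.H886R2.Eps
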