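import Pool.Agent.H886R2.Eps.Defs

/-!
# Orthogonal projections to planes, and areas
-/

set_option autoImplicit false

open MeasureTheory Set Metric Module
open scoped ENNReal NNReal

namespace Pool.Agent.H886R2.Eps

/-- Coordinates adapted to the unit vector `e`: orthogonal projection `p` along `e` to a plane
identified with `ℂ`. -/
structure Frame (e : E3) where
  p : E3 →L[ℝ] ℂ
  j : ℂ →L[ℝ] E3
  norm_p : ∀ w, ‖p w‖ ^ 2 = ‖w‖ ^ 2 - (inner ℝ e w) ^ 2
  pj : ∀ z, p (j z) = z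
  ej : ∀ z, inner ℝ e (j z) = 0
  norm_j : ∀ z, ‖j z‖ = ‖z‖
  split : ∀ w, w = j (p w) + (inner ℝ e w) • e

lemma exists_frame (e : E3) (he : ‖e‖ = 1) : Nonempty (Frame e) := by
  have hfact : Fact (finrank ℝ E3 = 2 + 1) := ⟨by simp⟩
  have he0 : e ≠ 0 := by
    rintro rfl
    simp at he
  let b := OrthonormalBasis.fromOrthogonalSpanSingleton (𝕜 := ℝ) 2 he0
  let L : (ℝ ∙ e)ᗮ ≃ₗᵢ[ℝ] ℂ := b.equiv Complex.orthonormalBasisOneI (Equiv.refl _)
  let pr : E3 →L[ℝ] (ℝ ∙ e)ᗮ := (ℝ ∙ e)ᗮ.orthogonalProjectionOnto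
  have hsplit : ∀ w : E3, w = (pr w : E3) + (inner ℝ e w) • e := by
    intro w
    have h1 := (ℝ ∙ e).starProjection_add_starProjection_orthogonal w
    rw [Submodule.starProjection_unit_singleton ℝ he w] at h1
    rw [add_comm]
    exact h1.symm
  have hperp : ∀ v : (ℝ ∙ e)ᗮ, inner ℝ e (v : E3) = 0 := fun v =>
    Submodule.mem_orthogonal_singleton_iff_inner_right.1 v.2
  refine ⟨{
    p := (L : (ℝ ∙ e)ᗮ →L[ℝ] ℂ) ∘L pr
    j := (Submodule.subtypeL _) ∘L (L.symm : ℂ →L[ℝ] (ℝ ∙ e)ᗮ)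
    norm_p := ?_
    pj := ?_
    ej := fun z => hperp _
    norm_j := ?_
    split := ?_ }⟩
  · intro w
    have h1 : ‖((L : (ℝ ∙ e)ᗮ →L[ℝ] ℂ) ∘L pr) w‖ = ‖(pr w : E3)‖ := by
      change ‖L (pr w)‖ = _
      rw [L.norm_map]
      rfl
    rw [h1]
    have h2 := hsplit w
    have h3 : ‖w‖ ^ 2 = ‖(pr w : E3)‖ ^ 2 + (inner ℝ e w) ^ 2 := by
      conv_lhs => rw [h2]
      rw [norm_add_sq_real, inner_smul_right, real_inner_comm e (pr w : E3), hperp, norm_smul, he]
      simp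
    linarith
  · intro z
    change L (pr ((L.symm z : (ℝ ∙ e)ᗮ) : E3)) = z
    have : pr ((L.symm z : (ℝ ∙ e)ᗮ) : E3) = L.symm z :=
      Submodule.orthogonalProjectionOnto_mem_subspace_eq_self _
    rw [this, L.apply_symm_apply]
  · intro z
    change ‖((L.symm z : (ℝ ∙ e)ᗮ) : E3)‖ = ‖z‖
    rw [← L.symm.norm_map z]
    rfl
  · intro w
    change w = ((L.symm (L (pr w)) : (ℝ ∙ e)ᗮ) : E3) + (inner ℝ e w) • e
    rw [L.symm_apply_apply]
    exact hsplit w

namespace Frame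

variable {e : E3} (F : Frame e)

lemma norm_p_le (w : E3) : ‖F.p w‖ ≤ ‖w‖ := by
  refine le_of_sq_le_sq ?_ (norm_nonneg _) |>.trans le_rfl
  rw [F.norm_p]
  nlinarith [sq_nonneg (inner ℝ e w : ℝ)]

lemma lipschitz : LipschitzWith 1 F.p := by
  refine LipschitzWith.of_dist_le_mul fun x y => ?_
  rw [dist_eq_norm, dist_eq_norm, ← map_sub, NNReal.coe_one, one_mul]
  exact F.norm_p_le _

end Frame

/-- the normalising constant -/
noncomputable def kap : ℝ≥0∞ := μH[2] {p : EuclideanSpace ℝ (Fin 2) | ∀ i, p i ∈ Icc (0 : ℝ) 1}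

lemma hausdorff_complex_eq : (μH[2] : Measure ℂ) = kap • (volume : Measure ℂ) ∧ kap ≠ 0 ∧
    kap ≠ ⊤ := by
  have hfr : ((finrank ℝ ℂ : ℕ) : ℝ) = 2 := by
    rw [Complex.finrank_real_complex]
    norm_num
  have h1 : (μH[2] : Measure ℂ).IsAddHaarMeasure := by
    rw [← hfr]
    infer_instance
  obtain ⟨c, hc0, hct, hc⟩ : ∃ c : ℝ≥0∞, c ≠ 0 ∧ c ≠ ⊤ ∧
      (μH[2] : Measure ℂ) = c • (volume : Measure ℂ) := by
    have h2 := Measure.isAddLeftInvariant_eq_smul (μH[2] : Measure ℂ) (volume : Measure ℂ)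
    have h3 := Measure.addHaarScalarFactor_pos_of_isAddHaarMeasure (μH[2] : Measure ℂ)
      (volume : Measure ℂ)
    exact ⟨_, by simpa using h3.ne', ENNReal.coe_ne_top, h2⟩
  -- unit square
  have hQ : (volume : Measure ℂ) {z : ℂ | z.re ∈ Icc (0 : ℝ) 1 ∧ z.im ∈ Icc (0 : ℝ) 1} = 1 := by
    have h : Complex.measurableEquivRealProd ⁻¹' (Icc (0 : ℝ) 1 ×ˢ Icc (0 : ℝ) 1) =
        {z : ℂ | z.re ∈ Icc (0 : ℝ) 1 ∧ z.im ∈ Icc (0 : ℝ) 1} := by
      ext z
      simp
      tauto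
    rw [← h, Complex.volume_preserving_equiv_real_prod.measure_preimage_equiv,
      Measure.volume_eq_prod, Measure.prod_prod, Real.volume_Icc]
    simp
  have hk : (μH[2] : Measure ℂ) {z : ℂ | z.re ∈ Icc (0 : ℝ) 1 ∧ z.im ∈ Icc (0 : ℝ) 1} = kap := by
    unfold kap
    let L : ℂ ≃ₗᵢ[ℝ] EuclideanSpace ℝ (Fin 2) := Complex.orthonormalBasisOneI.repr
    rw [← L.isometry.hausdorffMeasure_image (Or.inl zero_le_two)]
    congr 1
    ext p
    simp only [mem_image, mem_ofPred_eq]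
    constructor
    · rintro ⟨z, ⟨h1, h2⟩, rfl⟩ i
      fin_cases i
      · simpa [L] using h1
      · simpa [L] using h2
    · intro h
      refine ⟨L.symm p, ?_, L.apply_symm_apply p⟩
      have h0 := h 0
      have h1' := h 1
      have e0 : p 0 = (L.symm p).re := by
        conv_lhs => rw [← L.apply_symm_apply p]
        simp [L]
      have e1 : p 1 = (L.symm p).im := by
        conv_lhs => rw [← L.apply_symm_apply p]
        simp [L]
      rw [← e0, ← e1]
      exact ⟨h0, h1'⟩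
  have hck : c = kap := by
    rw [← hk, hc, Measure.smul_apply, hQ]
    simp
  subst hck
  exact ⟨hc, hc0, hct⟩

lemma kap_ne_zero : kap ≠ 0 := hausdorff_complex_eq.2.1
lemma kap_ne_top : kap ≠ ⊤ := hausdorff_complex_eq.2.2

/-- The surface area as a measure. -/
noncomputable def areaM : Measure E3 := kap⁻¹ • μH[2]

lemma area_eq (X : Set E3) : area X = areaM X := by
  unfold area areaM
  rw [Measure.smul_apply, smul_eq_mul, ENNReal.div_eq_inv_mul]
  rfl

/-- The area of a projection to a plane. -/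
lemma volume_proj_le {e : E3} (F : Frame e) (X : Set E3) : volume (F.p '' X) ≤ areaM X := by
  have h1 := F.lipschitz.hausdorffMeasure_image_le zero_le_two X
  rw [hausdorff_complex_eq.1, Measure.smul_apply, smul_eq_mul] at h1
  simp only [ENNReal.coe_one, ENNReal.one_rpow, one_mul] at h1
  unfold areaM
  rw [Measure.smul_apply, smul_eq_mul, ← ENNReal.div_eq_inv_mul,
    ENNReal.le_div_iff_mul_le (Or.inl kap_ne_zero) (Or.inl kap_ne_top), mul_comm]
  exact h1

/-- The area of a set which a projection to a plane does not shorten much. -/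
lemma areaM_le {e : E3} (F : Frame e) (X : Set E3) (c : ℝ) (hc : 0 < c)
    (h : ∀ x ∈ X, ∀ y ∈ X, c * ‖x - y‖ ≤ ‖F.p (x - y)‖) :
    areaM X ≤ ENNReal.ofReal (c⁻¹ ^ 2) * volume (F.p '' X) := by
  -- inverse map on the image
  have hinj : InjOn F.p X := by
    intro x hx y hy hxy
    have := h x hx y hy
    rw [map_sub, hxy, sub_self, norm_zero] at this
    have h0 : ‖x - y‖ ≤ 0 := by
      by_contra hcon
      push Not at hcon
      nlinarith
    exact sub_eq_zero.1 (norm_le_zero_iff.1 h0)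
  have hlip : LipschitzOnWith (Real.toNNReal c⁻¹) (Function.invFunOn F.p X) (F.p '' X) := by
    refine LipschitzOnWith.of_dist_le_mul ?_
    rintro _ ⟨x, hx, rfl⟩ _ ⟨y, hy, rfl⟩
    rw [hinj.leftInvOn_invFunOn hx, hinj.leftInvOn_invFunOn hy, dist_eq_norm, dist_eq_norm,
      ← map_sub, Real.coe_toNNReal _ (by positivity)]
    have := h x hx y hy
    rw [inv_mul_eq_div, le_div_iff₀ hc]
    linarith
  have h1 := hlip.hausdorffMeasure_image_le (zero_le_two (α := ℝ))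
  rw [hinj.leftInvOn_invFunOn.image_image, hausdorff_complex_eq.1, Measure.smul_apply,
    smul_eq_mul] at h1
  have h2 : ((Real.toNNReal c⁻¹ : ℝ≥0) : ℝ≥0∞) ^ (2 : ℝ) = ENNReal.ofReal (c⁻¹ ^ 2) := by
    rw [ENNReal.ofReal_pow (by positivity)]
    norm_cast
  rw [h2] at h1
  unfold areaM
  rw [Measure.smul_apply, smul_eq_mul]
  calc kap⁻¹ * μH[2] X ≤ kap⁻¹ * (ENNReal.ofReal (c⁻¹ ^ 2) * (kap * volume (F.p '' X))) := by
        gcongr
    _ = (kap⁻¹ * kap) * (ENNReal.ofReal (c⁻¹ ^ 2) * volume (F.p '' X)) := by ring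
    _ = _ := by rw [ENNReal.inv_mul_cancel kap_ne_zero kap_ne_top, one_mul]

end Pool.Agent.H886R2.Eps
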