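import Mathlib

/-!
# Planar area: lunes, chains of discs, grids of squares
-/

set_option autoImplicit false

open MeasureTheory Set Metric
open scoped ENNReal

namespace Pool.Agent.H886R2.Eps

/-- The area of a lune `closedBall (c + d) ρ \ closedBall c ρ`, `d ≥ 0` real. -/
lemma lune_axis (c : ℂ) (d : ℝ) (hd : 0 ≤ d) (ρ : ℝ) (hρ : 0 ≤ ρ) :
    volume (closedBall (c + d) ρ \ closedBall c ρ) ≤ ENNReal.ofReal (2 * ρ * d) := by
  have hmp := Complex.volume_preserving_equiv_real_prod.symm
  rw [← hmp.measure_preimage_equiv, Measure.volume_eq_prod]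
  have hms : MeasurableSet (Complex.measurableEquivRealProd.symm ⁻¹'
      (closedBall (c + d) ρ \ closedBall c ρ)) :=
    Complex.measurableEquivRealProd.symm.measurable
      (isClosed_closedBall.measurableSet.diff isClosed_closedBall.measurableSet)
  rw [Measure.prod_apply_symm hms]
  have hsec : ∀ y : ℝ, volume ((fun x : ℝ => (x, y)) ⁻¹'
      (Complex.measurableEquivRealProd.symm ⁻¹' (closedBall (c + d) ρ \ closedBall c ρ))) ≤
      (Icc (c.im - ρ) (c.im + ρ)).indicator (fun _ => ENNReal.ofReal d) y := by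
    intro y
    by_cases hy : y ∈ Icc (c.im - ρ) (c.im + ρ)
    · rw [indicator_of_mem hy]
      set w := Real.sqrt (ρ ^ 2 - (y - c.im) ^ 2) with hw
      have hnn : 0 ≤ ρ ^ 2 - (y - c.im) ^ 2 := by nlinarith [hy.1, hy.2]
      have hw2 : w ^ 2 = ρ ^ 2 - (y - c.im) ^ 2 := Real.sq_sqrt hnn
      have hw0 : 0 ≤ w := Real.sqrt_nonneg _
      have hsub : (fun x : ℝ => (x, y)) ⁻¹' (Complex.measurableEquivRealProd.symm ⁻¹'
          (closedBall (c + d) ρ \ closedBall c ρ)) ⊆ Icc (c.re + w) (c.re + w + d) := by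
        rintro x ⟨hx1, hx2⟩
        rw [mem_closedBall, Complex.dist_eq] at hx1 hx2
        simp only [Complex.measurableEquivRealProd_symm_apply] at hx1 hx2
        rw [not_le] at hx2
        have e1 : ‖(⟨x, y⟩ : ℂ) - (c + d)‖ ^ 2 = (x - c.re - d) ^ 2 + (y - c.im) ^ 2 := by
          rw [Complex.sq_norm, Complex.normSq_apply]
          simp
          ring
        have e2 : ‖(⟨x, y⟩ : ℂ) - c‖ ^ 2 = (x - c.re) ^ 2 + (y - c.im) ^ 2 := by
          rw [Complex.sq_norm, Complex.normSq_apply]
          simp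
          ring
        have h1 : (x - c.re - d) ^ 2 ≤ w ^ 2 := by
          have := pow_le_pow_left₀ (norm_nonneg _) hx1 2
          rw [e1] at this
          linarith
        have h2 : w ^ 2 < (x - c.re) ^ 2 := by
          have := pow_lt_pow_left₀ hx2 hρ (two_ne_zero)
          rw [e2] at this
          linarith
        have h3 := abs_le_of_sq_le_sq' h1 hw0
        have h4 : w < x - c.re := by
          by_contra hcon
          push Not at hcon
          have : -w ≤ x - c.re := by linarith [h3.1]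
          nlinarith
        exact ⟨by linarith, by linarith [h3.2]⟩
      refine (measure_mono hsub).trans ?_
      rw [Real.volume_Icc]
      apply le_of_eq
      congr 1
      ring
    · rw [indicator_of_notMem hy]
      refine (measure_mono (t := ∅) ?_).trans (by simp)
      rintro x ⟨hx1, hx2⟩
      exfalso
      apply hy
      rw [mem_closedBall, Complex.dist_eq] at hx1
      simp only [Complex.measurableEquivRealProd_symm_apply] at hx1
      have := (Complex.abs_im_le_norm _).trans hx1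
      simp only [Complex.sub_im, Complex.add_im, Complex.ofReal_im, add_zero] at this
      rw [abs_le] at this
      exact ⟨by linarith [this.1], by linarith [this.2]⟩
  refine (lintegral_mono hsec).trans ?_
  rw [lintegral_indicator measurableSet_Icc, setLIntegral_const, Real.volume_Icc,
    ← ENNReal.ofReal_mul hd]
  apply le_of_eq
  congr 1
  ring

/-- The area of a lune. -/
lemma lune (c c' : ℂ) (ρ : ℝ) (hρ : 0 ≤ ρ) :
    volume (closedBall c' ρ \ closedBall c ρ) ≤ ENNReal.ofReal (2 * ρ * ‖c' - c‖) := by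
  by_cases h : c' = c
  · simp [h]
  have h0 : c' - c ≠ 0 := sub_ne_zero.2 h
  have hn : (‖c' - c‖ : ℂ) ≠ 0 := by exact_mod_cast norm_ne_zero_iff.2 h0
  obtain ⟨v, hv⟩ : ∃ v : Circle, (v : ℂ) = (c' - c) / ‖c' - c‖ := by
    refine ⟨⟨(c' - c) / ‖c' - c‖, ?_⟩, rfl⟩
    simp [Submonoid.unitSphere, h0]
  let f : ℂ ≃ₗᵢ[ℝ] ℂ := rotation v
  have hf : ∀ z, f z = (v : ℂ) * z := fun z => rotation_apply v z
  have hfd : f (‖c' - c‖ : ℂ) = c' - c := by
    rw [hf, hv]
    field_simp
  obtain ⟨b, hb⟩ := f.surjective c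
  have hpre : f ⁻¹' (closedBall c' ρ \ closedBall c ρ) =
      closedBall (b + (‖c' - c‖ : ℝ)) ρ \ closedBall b ρ := by
    ext z
    have e1 : dist (f z) c' = dist z (b + (‖c' - c‖ : ℝ)) := by
      rw [← f.dist_map z (b + (‖c' - c‖ : ℝ)), map_add, hb, hfd]
      congr 1
      ring
    have e2 : dist (f z) c = dist z b := by
      rw [← hb, f.dist_map]
    simp only [mem_preimage, mem_sdiff, mem_closedBall, e1, e2]
  rw [← f.measurePreserving.measure_preimage_equiv (f := f.toMeasurableEquiv)]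
  change volume (f ⁻¹' (closedBall c' ρ \ closedBall c ρ)) ≤ _
  rw [hpre]
  exact lune_axis b _ (norm_nonneg _) ρ hρ

/-- The area of a union of discs of the same radius with centres on a chain. -/
lemma chain (p : ℕ → ℂ) (ρ : ℝ) (hρ : 0 ≤ ρ) (n : ℕ) :
    volume (⋃ i ∈ Finset.range (n + 1), closedBall (p i) ρ) ≤
      ENNReal.ofReal (4 * ρ ^ 2 + 2 * ρ * ∑ i ∈ Finset.range n, ‖p (i + 1) - p i‖) := by
  induction n with
  | zero =>
    simp only [zero_add, Finset.range_one, Finset.mem_singleton, iUnion_iUnion_eq_left,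
      Finset.range_zero, Finset.sum_empty, mul_zero, add_zero]
    rw [Complex.volume_closedBall]
    have : (NNReal.pi : ℝ≥0∞) ≤ ENNReal.ofReal 4 := by
      rw [← ENNReal.ofReal_coe_nnreal, NNReal.coe_real_pi]
      exact ENNReal.ofReal_le_ofReal Real.pi_le_four
    calc ENNReal.ofReal ρ ^ 2 * NNReal.pi ≤ ENNReal.ofReal ρ ^ 2 * ENNReal.ofReal 4 := by gcongr
      _ = ENNReal.ofReal (4 * ρ ^ 2) := by
        rw [← ENNReal.ofReal_pow hρ, ← ENNReal.ofReal_mul (by positivity), mul_comm]
  | succ n ih =>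
    have hsub : (⋃ i ∈ Finset.range (n + 1 + 1), closedBall (p i) ρ) ⊆
        (⋃ i ∈ Finset.range (n + 1), closedBall (p i) ρ) ∪
          (closedBall (p (n + 1)) ρ \ closedBall (p n) ρ) := by
      intro z hz
      simp only [mem_iUnion, Finset.mem_range, exists_prop] at hz
      obtain ⟨i, hi, hz⟩ := hz
      by_cases hin : i < n + 1
      · left
        simp only [mem_iUnion, Finset.mem_range, exists_prop]
        exact ⟨i, hin, hz⟩
      · have hi' : i = n + 1 := by omega
        subst hi'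
        by_cases hzn : z ∈ closedBall (p n) ρ
        · left
          simp only [mem_iUnion, Finset.mem_range, exists_prop]
          exact ⟨n, by omega, hzn⟩
        · right
          exact ⟨hz, hzn⟩
    refine (measure_mono hsub).trans ((measure_union_le _ _).trans ?_)
    refine (add_le_add ih (lune (p n) (p (n + 1)) ρ hρ)).trans ?_
    rw [← ENNReal.ofReal_add (by positivity) (by positivity), Finset.sum_range_succ]
    apply le_of_eq
    congr 1
    ring

/-- the half-open square of the grid of side `t` with index `k` -/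
def cell (t : ℝ) (k : ℤ × ℤ) : Set ℂ := {z | ⌊z.re / t⌋ = k.1 ∧ ⌊z.im / t⌋ = k.2}

lemma mem_cell_iff {t : ℝ} (ht : 0 < t) {k : ℤ × ℤ} {z : ℂ} : z ∈ cell t k ↔
    (k.1 * t ≤ z.re ∧ z.re < k.1 * t + t) ∧ (k.2 * t ≤ z.im ∧ z.im < k.2 * t + t) := by
  unfold cell
  simp only [mem_ofPred_eq, Int.floor_eq_iff, le_div_iff₀ ht, div_lt_iff₀ ht]
  constructor
  · rintro ⟨⟨h1, h2⟩, h3, h4⟩
    exact ⟨⟨h1, by linarith⟩, h3, by linarith⟩
  · rintro ⟨⟨h1, h2⟩, h3, h4⟩
    exact ⟨⟨h1, by linarith⟩, h3, by linarith⟩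

lemma volume_cell {t : ℝ} (ht : 0 < t) (k : ℤ × ℤ) : volume (cell t k) = ENNReal.ofReal (t ^ 2) := by
  have h : Complex.measurableEquivRealProd ⁻¹'
      (Ico (k.1 * t) (k.1 * t + t) ×ˢ Ico (k.2 * t) (k.2 * t + t)) = cell t k := by
    ext z
    rw [mem_cell_iff ht]
    simp
  rw [← h, Complex.volume_preserving_equiv_real_prod.measure_preimage_equiv,
    Measure.volume_eq_prod, Measure.prod_prod, Real.volume_Ico, Real.volume_Ico,
    ← ENNReal.ofReal_mul (by linarith)]
  congr 1
  ring

lemma measurableSet_cell {t : ℝ} (ht : 0 < t) (k : ℤ × ℤ) : MeasurableSet (cell t k) := by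
  have h : Complex.measurableEquivRealProd ⁻¹'
      (Ico (k.1 * t) (k.1 * t + t) ×ˢ Ico (k.2 * t) (k.2 * t + t)) = cell t k := by
    ext z
    rw [mem_cell_iff ht]
    simp
  rw [← h]
  exact Complex.measurableEquivRealProd.measurable (measurableSet_Ico.prod measurableSet_Ico)

lemma cell_dist {t : ℝ} (ht : 0 < t) {k : ℤ × ℤ} {z w : ℂ} (hz : z ∈ cell t k)
    (hw : w ∈ cell t k) : dist z w < 2 * t := by
  rw [mem_cell_iff ht] at hz hw
  rw [Complex.dist_eq]
  refine (Complex.norm_le_abs_re_add_abs_im _).trans_lt ?_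
  have h1 : |(z - w).re| < t := by
    rw [Complex.sub_re, abs_lt]
    constructor <;> linarith [hz.1.1, hz.1.2, hw.1.1, hw.1.2]
  have h2 : |(z - w).im| < t := by
    rw [Complex.sub_im, abs_lt]
    constructor <;> linarith [hz.2.1, hz.2.2, hw.2.1, hw.2.2]
  linarith

/-- A compact set in the plane is covered by finitely many squares of a fine grid, each meeting
the compact set, of total area not much larger than the area of the compact set. -/
lemma grid (D : Set ℂ) (hD : IsCompact D) (τ : ℝ) (hτ : 0 < τ) (t₀ : ℝ) (ht₀ : 0 < t₀) :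
    ∃ t : ℝ, 0 < t ∧ t < t₀ ∧ ∃ I : Finset (ℤ × ℤ), (∀ k ∈ I, (cell t k ∩ D).Nonempty) ∧
      (∀ z ∈ D, ∃ k ∈ I, z ∈ cell t k) ∧
      ENNReal.ofReal (I.card * t ^ 2) ≤ volume D + ENNReal.ofReal τ := by
  classical
  obtain ⟨U, hDU, hU, hvU⟩ := D.exists_isOpen_lt_add (μ := volume) hD.measure_lt_top.ne
    (ε := ENNReal.ofReal τ) (by simp [hτ])
  obtain ⟨δ, hδ, hδU⟩ := hD.exists_thickening_subset_open hU hDU
  set t := min (t₀ / 2) (δ / 2) with ht
  have ht0 : 0 < t := lt_min (by linarith) (by linarith)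
  have htδ : 2 * t ≤ δ := by
    have := min_le_right (t₀ / 2) (δ / 2)
    linarith
  refine ⟨t, ht0, (min_le_left _ _).trans_lt (by linarith), ?_⟩
  -- finitely many cells meet D
  have hfin : {k : ℤ × ℤ | (cell t k ∩ D).Nonempty}.Finite := by
    obtain ⟨R, hR⟩ := hD.isBounded.subset_closedBall 0
    have hsub : {k : ℤ × ℤ | (cell t k ∩ D).Nonempty} ⊆
        (Icc ⌊-R / t⌋ ⌊R / t⌋) ×ˢ (Icc ⌊-R / t⌋ ⌊R / t⌋) := by
      rintro k ⟨z, ⟨h1, h2⟩, hzD⟩
      have hz := hR hzD
      rw [mem_closedBall_zero_iff] at hz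
      have h3 := abs_le.1 ((Complex.abs_re_le_norm z).trans hz)
      have h4 := abs_le.1 ((Complex.abs_im_le_norm z).trans hz)
      rw [mem_prod, ← h1, ← h2]
      exact ⟨⟨Int.floor_le_floor (by gcongr; exact h3.1),
        Int.floor_le_floor (by gcongr; exact h3.2)⟩,
        ⟨Int.floor_le_floor (by gcongr; exact h4.1),
        Int.floor_le_floor (by gcongr; exact h4.2)⟩⟩
    exact ((finite_Icc _ _).prod (finite_Icc _ _)).subset hsub
  refine ⟨hfin.toFinset, fun k hk => by simpa using hk, fun z hz => ?_, ?_⟩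
  · exact ⟨(⌊z.re / t⌋, ⌊z.im / t⌋), by
      rw [Finite.mem_toFinset]
      exact ⟨z, ⟨rfl, rfl⟩, hz⟩, ⟨rfl, rfl⟩⟩
  · have hsub : (⋃ k ∈ hfin.toFinset, cell t k) ⊆ U := by
      intro z hz
      simp only [mem_iUnion, exists_prop] at hz
      obtain ⟨k, hk, hz⟩ := hz
      rw [Finite.mem_toFinset] at hk
      obtain ⟨w, hw, hwD⟩ := hk
      apply hδU
      rw [mem_thickening_iff]
      exact ⟨w, hwD, (cell_dist ht0 hz hw).trans_le htδ⟩
    have hdisj : (hfin.toFinset : Set (ℤ × ℤ)).PairwiseDisjoint (cell t) := by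
      intro k _ l _ hkl
      rw [Function.onFun, Set.disjoint_left]
      rintro z ⟨h1, h2⟩ ⟨h3, h4⟩
      exact hkl (Prod.ext (h1.symm.trans h3) (h2.symm.trans h4))
    have hm := measure_biUnion_finset (μ := volume) hdisj (fun k _ => measurableSet_cell ht0 k)
    rw [Finset.sum_congr rfl (fun k _ => volume_cell ht0 k), Finset.sum_const, nsmul_eq_mul] at hm
    rw [ENNReal.ofReal_mul (by positivity), ENNReal.ofReal_natCast, ← hm]
    exact (measure_mono hsub).trans hvU.le

end Pool.Agent.H886R2.Eps
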