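import Pool.Agent.H886R2.Eps.Smooth
import Pool.Agent.H886R2.Eps.Planar

/-!
# The lower bound for the length of a dense curve
-/

set_option autoImplicit false

open MeasureTheory Set Metric Module Filter Topology
open scoped ENNReal NNReal

namespace Pool.Agent.H886R2.Eps

variable {K : Set E3}

/-- discs around a chain of planar points with indices in `[m, m']` -/
lemma chain_Icc (p : ℕ → ℂ) (ρ : ℝ) (hρ : 0 ≤ ρ) (m k : ℕ) :
    volume (⋃ i ∈ Finset.range (k + 1), closedBall (p (m + i)) ρ) ≤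
      ENNReal.ofReal (4 * ρ ^ 2 + 2 * ρ * ∑ i ∈ Finset.range k, ‖p (m + i + 1) - p (m + i)‖) :=
  chain (fun i => p (m + i)) ρ hρ k

/-- one block -/
lemma block_area (hK : IsConvexBody K) {c r ρ ℓ : ℝ} (hc : 0 < c) (hρ : 0 < ρ) (hℓ : 0 < ℓ)
    (hr : ℓ + 2 * ρ < r) (v : ℕ → E3) (m k : ℕ)
    (hsum : ∑ i ∈ Finset.range k, ‖v (m + i + 1) - v (m + i)‖ ≤ ℓ) :
    areaM (good K c r ∩ ⋃ i ∈ Finset.range (k + 1), closedBall (v (m + i)) ρ) ≤
      ENNReal.ofReal (c⁻¹ ^ 2 * (4 * ρ ^ 2 + 2 * ρ * ℓ)) := by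
  rcases (good K c r ∩ ⋃ i ∈ Finset.range (k + 1), closedBall (v (m + i)) ρ).eq_empty_or_nonempty
    with h0 | ⟨x, hx⟩
  · rw [h0, measure_empty]
    exact bot_le
  have hr0 : 0 < r := by linarith
  obtain ⟨e, he⟩ := good_chart hK hc hr0 hx.1
  obtain ⟨F⟩ := exists_frame e he.norm_e
  -- partial sums control the distances of the centres
  have hcen : ∀ i j, i ≤ j → j ≤ k → dist (v (m + i)) (v (m + j)) ≤ ℓ := by
    intro i j hij hjk
    have h1 : dist (v (m + i)) (v (m + j)) ≤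
        ∑ l ∈ Finset.Ico i j, dist (v (m + l)) (v (m + (l + 1))) :=
      dist_le_Ico_sum_dist (fun l => v (m + l)) hij
    refine h1.trans (le_trans ?_ hsum)
    calc ∑ l ∈ Finset.Ico i j, dist (v (m + l)) (v (m + (l + 1)))
        = ∑ l ∈ Finset.Ico i j, ‖v (m + l + 1) - v (m + l)‖ := by
          refine Finset.sum_congr rfl fun l _ => ?_
          rw [dist_comm, dist_eq_norm]
          rfl
      _ ≤ ∑ l ∈ Finset.range k, ‖v (m + l + 1) - v (m + l)‖ := by
          refine Finset.sum_le_sum_of_subset_of_nonneg ?_ fun _ _ _ => norm_nonneg _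
          intro l hl
          rw [Finset.mem_Ico] at hl
          rw [Finset.mem_range]
          omega
  have hcen' : ∀ i j, i ≤ k → j ≤ k → dist (v (m + i)) (v (m + j)) ≤ ℓ := by
    intro i j hi hj
    rcases le_total i j with h | h
    · exact hcen i j h hj
    · rw [dist_comm]
      exact hcen j i h hi
  have hball : ∀ y ∈ good K c r ∩ ⋃ i ∈ Finset.range (k + 1), closedBall (v (m + i)) ρ,
      dist y x < r := by
    intro y hy
    obtain ⟨i, hi, hyi⟩ := mem_iUnion₂.1 hy.2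
    obtain ⟨j, hj, hxj⟩ := mem_iUnion₂.1 hx.2
    rw [Finset.mem_range] at hi hj
    rw [mem_closedBall] at hyi hxj
    have h1 := hcen' i j (by omega) (by omega)
    have h2 : dist y x ≤ dist y (v (m + i)) + dist (v (m + i)) (v (m + j)) +
        dist (v (m + j)) x := dist_triangle4 _ _ _ _
    rw [dist_comm (v (m + j)) x] at h2
    linarith
  refine (areaM_le F _ c hc fun y hy z hz => he.le_norm hK F hy.1.1 hz.1.1
    (hball y hy) (hball z hz)).trans ?_
  rw [ENNReal.ofReal_mul (by positivity)]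
  gcongr
  have hsub : F.p '' (good K c r ∩ ⋃ i ∈ Finset.range (k + 1), closedBall (v (m + i)) ρ) ⊆
      ⋃ i ∈ Finset.range (k + 1), closedBall (F.p (v (m + i))) ρ := by
    rintro _ ⟨y, hy, rfl⟩
    obtain ⟨i, hi, hyi⟩ := mem_iUnion₂.1 hy.2
    refine mem_iUnion₂.2 ⟨i, hi, ?_⟩
    rw [mem_closedBall] at hyi ⊢
    have := F.lipschitz.dist_le_mul y (v (m + i))
    rw [NNReal.coe_one, one_mul] at this
    exact this.trans hyi
  refine (measure_mono hsub).trans ((chain_Icc (fun i => F.p (v i)) ρ hρ.le m k).trans ?_)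
  apply ENNReal.ofReal_le_ofReal
  have : ∑ i ∈ Finset.range k, ‖F.p (v (m + i + 1)) - F.p (v (m + i))‖ ≤ ℓ := by
    refine le_trans (Finset.sum_le_sum fun i _ => ?_) hsum
    rw [← map_sub]
    exact F.norm_p_le _
  gcongr

/-- the area covered by neighbourhoods of a chain -/
lemma chain_area (hK : IsConvexBody K) {c r ρ ℓ L : ℝ} (hc : 0 < c) (hρ : 0 < ρ) (hℓ : 0 < ℓ)
    (hr : ℓ + 2 * ρ < r) (v : ℕ → E3) (n : ℕ)
    (hsum : ∑ i ∈ Finset.range n, ‖v (i + 1) - v i‖ ≤ L)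
    (hcov : frontier K ⊆ ⋃ i ∈ Finset.range (n + 1), closedBall (v i) ρ) :
    areaM (good K c r) ≤ ENNReal.ofReal ((L / ℓ + 1) * (c⁻¹ ^ 2 * (4 * ρ ^ 2 + 2 * ρ * ℓ))) := by
  classical
  set s : ℕ → ℝ := fun i => ∑ j ∈ Finset.range i, ‖v (j + 1) - v j‖ with hs
  have hs0 : ∀ i, 0 ≤ s i := fun i => Finset.sum_nonneg fun _ _ => norm_nonneg _
  have hsm : Monotone s := by
    refine monotone_nat_of_le_succ fun i => ?_
    simp only [hs, Finset.sum_range_succ]
    linarith [norm_nonneg (v (i + 1) - v i)]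
  set b : ℕ → ℕ := fun i => ⌊s i / ℓ⌋₊ with hb
  have hbm : Monotone b := fun i j hij => Nat.floor_le_floor (by have := hsm hij; gcongr)
  have hL0 : 0 ≤ L := (hs0 n).trans hsum
  set N := ⌊L / ℓ⌋₊ with hN
  have hbN : ∀ i ≤ n, b i ≤ N := fun i hi =>
    Nat.floor_le_floor (by have := (hsm hi).trans hsum; gcongr)
  have hcover : good K c r ⊆ ⋃ t ∈ Finset.range (N + 1),
      (good K c r ∩ ⋃ i ∈ {i | i ≤ n ∧ b i = t}, closedBall (v i) ρ) := by
    intro y hy
    obtain ⟨i, hi, hyi⟩ := mem_iUnion₂.1 (hcov hy.1)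
    rw [Finset.mem_range] at hi
    refine mem_iUnion₂.2 ⟨b i, ?_, hy, mem_iUnion₂.2 ⟨i, ⟨by omega, rfl⟩, hyi⟩⟩
    rw [Finset.mem_range]
    have := hbN i (by omega)
    omega
  have hblock : ∀ t, areaM (good K c r ∩ ⋃ i ∈ {i | i ≤ n ∧ b i = t}, closedBall (v i) ρ) ≤
      ENNReal.ofReal (c⁻¹ ^ 2 * (4 * ρ ^ 2 + 2 * ρ * ℓ)) := by
    intro t
    by_cases hne : ∃ i, i ≤ n ∧ b i = t
    · -- least and greatest index of the block
      set m := Nat.find hne with hm
      have hm' : m ≤ n ∧ b m = t := Nat.find_spec hne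
      set m' := Nat.findGreatest (fun i => b i = t) n with hm'def
      have hgr : b m' = t := Nat.findGreatest_spec (P := fun i => b i = t) hm'.1 hm'.2
      have hm'n : m' ≤ n := Nat.findGreatest_le _
      have hmm' : m ≤ m' := Nat.le_findGreatest hm'.1 hm'.2
      obtain ⟨k, hk⟩ := Nat.exists_eq_add_of_le hmm'
      have hsum' : ∑ i ∈ Finset.range k, ‖v (m + i + 1) - v (m + i)‖ ≤ ℓ := by
        have h1 : s (m + k) = s m + ∑ i ∈ Finset.range k, ‖v (m + i + 1) - v (m + i)‖ := by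
          simp only [hs]
          rw [Finset.sum_range_add]
        have h2 : (t : ℝ) ≤ s m / ℓ := by
          rw [← hm'.2]
          exact Nat.floor_le (by have := hs0 m; positivity)
        have h3 : s (m + k) / ℓ < t + 1 := by
          rw [← hk, ← hgr]
          exact Nat.lt_floor_add_one _
        rw [le_div_iff₀ hℓ] at h2
        rw [div_lt_iff₀ hℓ] at h3
        linarith
      refine (measure_mono ?_).trans (block_area hK hc hρ hℓ hr v m k hsum')
      refine inter_subset_inter_right _ ?_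
      intro y hy
      obtain ⟨i, ⟨hin, hit⟩, hyi⟩ := mem_iUnion₂.1 hy
      have h1 : m ≤ i := Nat.find_min' hne ⟨hin, hit⟩
      have h2 : i ≤ m' := Nat.le_findGreatest hin hit
      refine mem_iUnion₂.2 ⟨i - m, ?_, ?_⟩
      · rw [Finset.mem_range]
        omega
      · rwa [Nat.add_sub_cancel' h1]
    · have hem : (⋃ i ∈ {i | i ≤ n ∧ b i = t}, closedBall (v i) ρ) = ∅ := by
        rw [eq_empty_iff_forall_notMem]
        intro y hy
        obtain ⟨i, hi, -⟩ := mem_iUnion₂.1 hy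
        exact hne ⟨i, hi⟩
      rw [hem, inter_empty, measure_empty]
      exact bot_le
  refine (measure_mono hcover).trans ((measure_biUnion_finset_le _ _).trans ?_)
  refine (Finset.sum_le_sum fun t _ => hblock t).trans ?_
  rw [Finset.sum_const, Finset.card_range, nsmul_eq_mul, ← ENNReal.ofReal_natCast,
    ← ENNReal.ofReal_mul (by positivity)]
  apply ENNReal.ofReal_le_ofReal
  have h1 : (N : ℝ) ≤ L / ℓ := Nat.floor_le (by positivity)
  push_cast
  gcongr

/-- the intrinsic distance is at least the distance in space -/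
lemma edist_le_intrinsicDist (S : Set E3) (x y : E3) : edist x y ≤ intrinsicDist S x y := by
  unfold intrinsicDist
  refine le_iInf fun c => le_iInf fun hc => ?_
  rw [← hc.2.2.1, ← hc.2.2.2]
  exact eVariationOn.edist_le c (by simp) (by simp)

/-- a dense curve gives a chain of points -/
lemma exists_chain {S : Set E3} {ε η : ℝ} (hε : 0 < ε) (hη : 0 < η) {c : ℝ → E3}
    (h : IsDenseCurve S ε c) : ∃ (v : ℕ → E3) (n : ℕ),
      ∑ i ∈ Finset.range n, ‖v (i + 1) - v i‖ ≤ (eVariationOn c (Icc 0 1)).toReal ∧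
      S ⊆ ⋃ i ∈ Finset.range (n + 1), closedBall (v i) (ε + η) := by
  have huc := isCompact_Icc.uniformContinuousOn_of_continuous h.continuous
  rw [Metric.uniformContinuousOn_iff] at huc
  obtain ⟨δ, hδ, hc⟩ := huc η hη
  obtain ⟨n, hn⟩ := exists_nat_one_div_lt hδ
  have hn1 : (0 : ℝ) < (n : ℝ) + 1 := by positivity
  refine ⟨fun i => c (i / ((n : ℝ) + 1)), n + 1, ?_, ?_⟩
  · have hmono : MonotoneOn (fun i : ℕ => (i : ℝ) / ((n : ℝ) + 1)) (Iic (n + 1)) := by
      intro i _ j _ hij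
      have : (i : ℝ) ≤ j := by exact_mod_cast hij
      simp only
      gcongr
    have hmem : ∀ i ≤ n + 1, (i : ℝ) / ((n : ℝ) + 1) ∈ Icc (0 : ℝ) 1 := by
      intro i hi
      refine ⟨by positivity, ?_⟩
      rw [div_le_one hn1]
      exact_mod_cast hi
    have h1 := eVariationOn.sum_le_of_monotoneOn_Iic (f := c) hmono hmem
    have h2 := ENNReal.toReal_mono h.rectifiable h1
    rw [ENNReal.toReal_sum (fun _ _ => edist_ne_top _ _)] at h2
    refine le_trans (le_of_eq (Finset.sum_congr rfl fun i _ => ?_)) h2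
    rw [edist_dist, ENNReal.toReal_ofReal dist_nonneg, dist_eq_norm]
  · intro x hx
    obtain ⟨t, ht, hxt⟩ := h.dense x hx
    have h1 := (edist_le_intrinsicDist S x (c t)).trans hxt
    rw [edist_dist, ENNReal.ofReal_le_ofReal_iff hε.le] at h1
    set i := ⌊t * ((n : ℝ) + 1)⌋₊ with hi
    have hi1 : (i : ℝ) ≤ t * ((n : ℝ) + 1) := Nat.floor_le (mul_nonneg ht.1 hn1.le)
    have hi2 : t * ((n : ℝ) + 1) < i + 1 := Nat.lt_floor_add_one _
    have hin : i ≤ n + 1 := by
      have : (i : ℝ) ≤ n + 1 := hi1.trans (by nlinarith [ht.2])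
      exact_mod_cast this
    refine mem_iUnion₂.2 ⟨i, by rw [Finset.mem_range]; omega, ?_⟩
    rw [mem_closedBall]
    have h3 : dist (c t) (c (i / ((n : ℝ) + 1))) < η := by
      apply hc t ht _ ⟨by positivity, by rw [div_le_one hn1]; exact_mod_cast hin⟩
      rw [Real.dist_eq, abs_of_nonneg (by rw [sub_nonneg, div_le_iff₀ hn1]; exact hi1)]
      refine lt_trans ?_ hn
      rw [sub_lt_iff_lt_add, ← add_div, lt_div_iff₀ hn1]
      linarith
    exact (dist_triangle x (c t) _).trans (by linarith)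

/-- The lower bound. -/
lemma lower (hK : IsConvexBody K) {θ : ℝ} (hθ : 0 < θ) : ∃ ε₀ : ℝ, 0 < ε₀ ∧ ∀ ε, 0 < ε → ε < ε₀ →
    ∀ c : ℝ → E3, IsDenseCurve (frontier K) ε c →
      (areaM (frontier K)).toReal / 2 - θ ≤ ε * (eVariationOn c (Icc 0 1)).toReal := by
  set A := (areaM (frontier K)).toReal with hA
  have hA0 : 0 ≤ A := ENNReal.toReal_nonneg
  -- the constants
  set θ' := min θ 1 with hθ'
  have hθ'0 : 0 < θ' := lt_min hθ one_pos
  have hθ'1 : θ' ≤ 1 := min_le_right _ _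
  set γ := 1 - θ' / (8 * (A + 1)) with hγ
  have hγ1 : γ < 1 := by
    have : 0 < θ' / (8 * (A + 1)) := by positivity
    linarith
  have hγ0 : 0 < γ := by
    have : θ' / (8 * (A + 1)) ≤ 1 / 8 := by
      rw [div_le_div_iff₀ (by positivity) (by norm_num)]
      nlinarith
    linarith
  have hγ2 : A - θ' / 4 ≤ γ ^ 2 * A := by
    have h1 : θ' / (8 * (A + 1)) * A ≤ θ' / 8 := by
      rw [div_mul_eq_mul_div, div_le_div_iff₀ (by positivity) (by norm_num)]
      nlinarith
    have h2 : γ ^ 2 * A = A - 2 * (θ' / (8 * (A + 1)) * A) +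
        (θ' / (8 * (A + 1))) ^ 2 * A := by
      rw [hγ]
      ring
    rw [h2]
    have : 0 ≤ (θ' / (8 * (A + 1))) ^ 2 * A := by positivity
    linarith
  obtain ⟨r, hr, hgood⟩ := exists_good hK hγ1 (η := ENNReal.ofReal (θ' / 4)) (by simp [hθ'0])
  -- area of the good part
  set G := (areaM (good K γ r)).toReal with hG
  have hGA : A - θ' / 4 ≤ G := by
    have h1 : areaM (frontier K) ≤ areaM (good K γ r) + ENNReal.ofReal (θ' / 4) := by
      calc areaM (frontier K) ≤ areaM (good K γ r ∪ (frontier K \ good K γ r)) :=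
            measure_mono (by rw [union_sdiff_self]; exact subset_union_right)
        _ ≤ areaM (good K γ r) + areaM (frontier K \ good K γ r) := measure_union_le _ _
        _ ≤ _ := by gcongr
    have h2 : areaM (good K γ r) ≠ ⊤ :=
      ((measure_mono fun x hx => hx.1).trans_lt hK.area_lt_top).ne
    have h3 := ENNReal.toReal_mono (ENNReal.add_ne_top.2 ⟨h2, ENNReal.ofReal_ne_top⟩) h1
    rw [ENNReal.toReal_add h2 ENNReal.ofReal_ne_top, ENNReal.toReal_ofReal (by positivity)] at h3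
    linarith
  obtain ⟨M, hM⟩ := exists_nat_gt (max 1 (36 * A / θ'))
  have hM1 : (1 : ℝ) < M := (le_max_left _ _).trans_lt hM
  have hM2 : 36 * A / θ' < M := (le_max_right _ _).trans_lt hM
  have hM0 : (0 : ℝ) < M := by linarith
  have hM3 : 9 * A / M ≤ θ' / 4 := by
    rw [div_lt_iff₀ hθ'0] at hM2
    rw [div_le_div_iff₀ hM0 (by norm_num)]
    nlinarith
  have hex : ∃ ε₀ : ℝ, 0 < ε₀ ∧ ε₀ * (M + 4) < r ∧ ε₀ ^ 2 * (2 * M + 18) ≤ θ' / 4 := by
    have h1 : Tendsto (fun x : ℝ => x * (M + 4)) (𝓝[>] 0) (𝓝 0) := by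
      have : Continuous fun x : ℝ => x * (M + 4) := by fun_prop
      have := this.tendsto 0
      rw [zero_mul] at this
      exact this.mono_left nhdsWithin_le_nhds
    have h2 : Tendsto (fun x : ℝ => x ^ 2 * (2 * M + 18)) (𝓝[>] 0) (𝓝 0) := by
      have : Continuous fun x : ℝ => x ^ 2 * (2 * (M : ℝ) + 18) := by fun_prop
      have := this.tendsto 0
      simp only [ne_eq, OfNat.ofNat_ne_zero, not_false_eq_true, zero_pow, zero_mul] at this
      exact this.mono_left nhdsWithin_le_nhds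
    obtain ⟨x, h3, h4, h5⟩ := ((h1.eventually (gt_mem_nhds hr)).and
      ((h2.eventually (gt_mem_nhds (show (0 : ℝ) < θ' / 4 by positivity))).and
      self_mem_nhdsWithin)).exists
    exact ⟨x, h5, h3, h4.le⟩
  obtain ⟨ε₀, hε₀, hε₀1, hε₀2⟩ := hex
  refine ⟨ε₀, hε₀, fun ε hε hεε₀ c hc => ?_⟩
  set L := (eVariationOn c (Icc 0 1)).toReal with hL
  have hL0 : 0 ≤ L := ENNReal.toReal_nonneg
  obtain ⟨v, n, hsum, hcov⟩ := exists_chain hε (η := ε / M) (by positivity) hc
  have hρ : 0 < ε + ε / M := by positivity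
  have hεM : ε / M ≤ ε := div_le_self hε.le hM1.le
  have hr' : M * ε + 2 * (ε + ε / M) < r := by
    have : ε * (M + 4) ≤ ε₀ * (M + 4) := by gcongr
    nlinarith
  have h1 := chain_area hK hγ0 hρ (ℓ := M * ε) (by positivity) hr' v n hsum hcov
  have h2 : G ≤ (L / (M * ε) + 1) * (γ⁻¹ ^ 2 * (4 * (ε + ε / M) ^ 2 + 2 * (ε + ε / M) * (M * ε))) := by
    have := ENNReal.toReal_mono ENNReal.ofReal_ne_top h1
    rwa [ENNReal.toReal_ofReal (by positivity)] at this
  have h3 : 4 * (ε + ε / M) ^ 2 + 2 * (ε + ε / M) * (M * ε) ≤ ε ^ 2 * (2 * M + 18) := by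
    have e1 : 2 * (ε + ε / M) * (M * ε) = 2 * M * ε ^ 2 + 2 * ε ^ 2 := by field_simp
    rw [e1]
    have e2 : (ε + ε / M) ^ 2 ≤ (2 * ε) ^ 2 := by
      apply pow_le_pow_left₀ (by positivity)
      linarith
    nlinarith
  have h4 : γ ^ 2 * G ≤ (L / (M * ε) + 1) * (ε ^ 2 * (2 * M + 18)) := by
    have h5 : G ≤ (L / (M * ε) + 1) * (γ⁻¹ ^ 2 * (ε ^ 2 * (2 * M + 18))) := by
      refine h2.trans ?_
      gcongr
    calc γ ^ 2 * G ≤ γ ^ 2 * ((L / (M * ε) + 1) * (γ⁻¹ ^ 2 * (ε ^ 2 * (2 * M + 18)))) := by gcongr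
      _ = _ := by field_simp
  have h5 : (L / (M * ε) + 1) * (ε ^ 2 * (2 * M + 18)) =
      ε * L * (2 + 18 / M) + ε ^ 2 * (2 * M + 18) := by
    field_simp
  rw [h5] at h4
  by_contra hcon
  push Not at hcon
  have h6 : ε * L ≤ A / 2 := by linarith
  have h7 : ε * L * (2 + 18 / M) ≤ 2 * (ε * L) + 9 * A / M := by
    have : ε * L * (18 / M) ≤ A / 2 * (18 / M) := by gcongr
    have e3 : A / 2 * (18 / M) = 9 * A / M := by ring
    rw [e3] at this
    linarith
  have h8 : ε ^ 2 * (2 * M + 18) ≤ θ' / 4 := by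
    refine le_trans ?_ hε₀2
    gcongr
  have h9 : A - θ' / 2 ≤ γ ^ 2 * G := by
    have h10 : γ ^ 2 * (A - θ' / 4) ≤ γ ^ 2 * G := by gcongr
    have h11 : γ ^ 2 * (θ' / 4) ≤ θ' / 4 :=
      mul_le_of_le_one_left (by positivity) (pow_le_one₀ hγ0.le hγ1.le)
    rw [mul_sub] at h10
    linarith
  have h12 : θ' ≤ θ := min_le_left _ _
  linarith

end Pool.Agent.H886R2.Eps
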