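import Pool.Agent.H886R2.Eps.Frame

/-!
# Normals of a convex body, the metric projection and charts
-/

set_option autoImplicit false

open MeasureTheory Set Metric Module
open scoped ENNReal NNReal

namespace Pool.Agent.H886R2.Eps

/-- `u` is a unit outer normal of `K` at `y` -/
def IsNormal (K : Set E3) (y u : E3) : Prop := ‖u‖ = 1 ∧ ∀ k ∈ K, inner ℝ (k - y) u ≤ (0 : ℝ)

variable {K : Set E3}

lemma IsConvexBody.frontier_subset (hK : IsConvexBody K) : frontier K ⊆ K :=
  hK.compact.isClosed.frontier_subset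

lemma IsConvexBody.isClosed_frontier : IsClosed (frontier K) := _root_.isClosed_frontier

lemma IsConvexBody.isCompact_frontier (hK : IsConvexBody K) : IsCompact (frontier K) :=
  hK.compact.of_isClosed_subset _root_.isClosed_frontier hK.frontier_subset

/-- every boundary point has a normal -/
lemma IsConvexBody.exists_normal (hK : IsConvexBody K) {y : E3} (hy : y ∈ frontier K) :
    ∃ u, IsNormal K y u := by
  have hyi : y ∉ interior K := hy.2
  obtain ⟨f, hf⟩ := geometric_hahn_banach_open_point hK.convex.interior isOpen_interior hyi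
  obtain ⟨o, ho⟩ := hK.interior_nonempty
  set v := (InnerProductSpace.toDual ℝ E3).symm f with hv
  have hfv : ∀ w, f w = inner ℝ v w := by
    intro w
    rw [hv, InnerProductSpace.toDual_symm_apply]
  have hv0 : v ≠ 0 := by
    intro h0
    have := hf o ho
    rw [hfv, hfv, h0, inner_zero_left, inner_zero_left] at this
    exact lt_irrefl _ this
  have hn : 0 < ‖v‖ := norm_pos_iff.2 hv0
  have hcl : ∀ k ∈ K, f k ≤ f y := by
    intro k hk
    have h1 : k ∈ closure (interior K) := by
      rw [hK.convex.closure_interior_eq_closure_of_nonempty_interior hK.interior_nonempty]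
      exact subset_closure hk
    have h2 : IsClosed {w | f w ≤ f y} := isClosed_le f.continuous continuous_const
    exact closure_minimal (fun w hw => (hf w hw).le) h2 h1
  refine ⟨‖v‖⁻¹ • v, ?_, ?_⟩
  · rw [norm_smul, norm_inv, norm_norm, inv_mul_cancel₀ hn.ne']
  · intro k hk
    rw [inner_smul_right, real_inner_comm, inner_sub_right, ← hfv, ← hfv]
    have := hcl k hk
    have h3 : 0 ≤ ‖v‖⁻¹ := by positivity
    nlinarith

/-- the metric projection -/
lemma IsConvexBody.exists_proj (hK : IsConvexBody K) : ∃ P : E3 → E3, (∀ x, P x ∈ K) ∧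
    (∀ x, ∀ k ∈ K, inner ℝ (x - P x) (k - P x) ≤ (0 : ℝ)) := by
  have h : ∀ x : E3, ∃ y ∈ K, ∀ k ∈ K, inner ℝ (x - y) (k - y) ≤ (0 : ℝ) := by
    intro x
    obtain ⟨y, hy, hmin⟩ := exists_norm_eq_iInf_of_complete_convex
      (hK.interior_nonempty.mono interior_subset) hK.compact.isComplete hK.convex x
    exact ⟨y, hy, (norm_eq_iInf_iff_real_inner_le_zero hK.convex hy).1 hmin⟩
  choose P h1 h2 using h
  exact ⟨P, h1, h2⟩

/-- a point with a normal is not interior -/
lemma IsNormal.not_mem_interior {y u : E3} (h : IsNormal K y u) : y ∉ interior K := by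
  intro hy
  obtain ⟨ε, hε, hb⟩ := Metric.isOpen_iff.1 isOpen_interior y hy
  have h1 : y + (ε / 2) • u ∈ ball y ε := by
    rw [mem_ball, dist_eq_norm, add_sub_cancel_left, norm_smul, h.1, mul_one, Real.norm_eq_abs,
      abs_of_pos (by linarith)]
    linarith
  have h2 := h.2 _ (interior_subset (hb h1))
  rw [add_sub_cancel_left, inner_smul_left, real_inner_self_eq_norm_sq, h.1] at h2
  simp at h2
  linarith

lemma IsNormal.mem_frontier {y u : E3} (h : IsNormal K y u) (hy : y ∈ K) : y ∈ frontier K :=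
  ⟨subset_closure hy, h.not_mem_interior⟩

section proj

variable {P : E3 → E3} (hP : ∀ x, P x ∈ K)
  (hP2 : ∀ x, ∀ k ∈ K, inner ℝ (x - P x) (k - P x) ≤ (0 : ℝ))

include hP hP2

lemma proj_eq_of_cone {y w : E3} (hy : y ∈ K) (hw : ∀ k ∈ K, inner ℝ (k - y) w ≤ (0 : ℝ)) :
    P (y + w) = y := by
  have h1 := hP2 (y + w) y hy
  have h2 := hw _ (hP (y + w))
  set p := P (y + w)
  have h3 : ‖y - p‖ ^ 2 ≤ 0 := by
    rw [← real_inner_self_eq_norm_sq]
    have e1 : y + w - p = (y - p) + w := by abel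
    rw [e1, inner_add_left] at h1
    have e2 : inner ℝ w (y - p) = - (inner ℝ (p - y) w : ℝ) := by
      rw [real_inner_comm, ← inner_neg_left]
      congr 1
      abel
    rw [e2] at h1
    linarith
  have h4 : ‖y - p‖ = 0 := by
    have := sq_nonneg ‖y - p‖
    have : ‖y - p‖ ^ 2 = 0 := le_antisymm h3 this
    simpa using this
  rw [norm_eq_zero, sub_eq_zero] at h4
  exact h4.symm

lemma proj_self {y : E3} (hy : y ∈ K) : P y = y := by
  have := proj_eq_of_cone hP hP2 (w := 0) hy (by simp)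
  simpa using this

lemma proj_lipschitz : LipschitzWith 1 P := by
  refine LipschitzWith.of_dist_le_mul fun x y => ?_
  rw [NNReal.coe_one, one_mul, dist_eq_norm, dist_eq_norm]
  have h1 := hP2 x _ (hP y)
  have h2 := hP2 y _ (hP x)
  have h3 : ‖P x - P y‖ ^ 2 ≤ inner ℝ (x - y) (P x - P y) := by
    rw [← real_inner_self_eq_norm_sq]
    have e1 : inner ℝ (x - P x) (P y - P x) = - (inner ℝ (x - P x) (P x - P y) : ℝ) := by
      rw [← inner_neg_right]
      congr 1
      abel
    rw [e1] at h1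
    have e3 : inner ℝ (x - P x) (P x - P y) - inner ℝ (y - P y) (P x - P y) =
        (inner ℝ (x - y) (P x - P y) : ℝ) - inner ℝ (P x - P y) (P x - P y) := by
      rw [← inner_sub_left, ← inner_sub_left]
      congr 1
      abel
    linarith
  have h4 := h3.trans (real_inner_le_norm _ _)
  rcases (norm_nonneg (P x - P y)).eq_or_lt with h0 | h0
  · rw [← h0]
    exact norm_nonneg _
  · rw [sq] at h4
    exact le_of_mul_le_mul_right h4 h0

lemma proj_normal {x : E3} (hx : x ∉ K) : IsNormal K (P x) (‖x - P x‖⁻¹ • (x - P x)) := by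
  have h0 : x - P x ≠ 0 := by
    intro h
    apply hx
    rw [sub_eq_zero.1 h]
    exact hP x
  have hn : 0 < ‖x - P x‖ := norm_pos_iff.2 h0
  refine ⟨?_, fun k hk => ?_⟩
  · rw [norm_smul, norm_inv, norm_norm, inv_mul_cancel₀ hn.ne']
  · rw [inner_smul_right, real_inner_comm]
    have h1 := hP2 x k hk
    have h2 : 0 ≤ ‖x - P x‖⁻¹ := by positivity
    nlinarith

lemma proj_mem_frontier {x : E3} (hx : x ∉ interior K) : P x ∈ frontier K := by
  by_cases h : x ∈ K
  · rw [proj_self hP hP2 h]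
    exact ⟨subset_closure h, hx⟩
  · exact (proj_normal hP hP2 h).mem_frontier (hP x)

end proj

/-- a segment from `K` to its complement meets the boundary -/
lemma exists_frontier_segment {a b : E3} (ha : a ∈ K) (hb : b ∉ K) :
    ∃ y ∈ segment ℝ a b, y ∈ frontier K := by
  by_contra hcon
  push Not at hcon
  have hpre := (convex_segment a b).isPreconnected
  by_cases hbc : b ∈ closure K
  · exact hcon b (right_mem_segment ℝ a b) ⟨hbc, fun h => hb (interior_subset h)⟩
  · have h1 : a ∈ interior K := by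
      by_contra h
      exact hcon a (left_mem_segment ℝ a b) ⟨subset_closure ha, h⟩
    obtain ⟨z, hz, hz1, hz2⟩ := hpre (interior K) (closure K)ᶜ isOpen_interior
      isClosed_closure.isOpen_compl (by
        intro z hz
        by_cases h : z ∈ closure K
        · left
          by_contra h'
          exact hcon z hz ⟨h, h'⟩
        · right
          exact h) ⟨a, left_mem_segment ℝ a b, h1⟩ ⟨b, right_mem_segment ℝ a b, hbc⟩
    exact hz2 (subset_closure (interior_subset hz1))

/-- A chart: near the boundary point `x` all normals make a definite angle with the plane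
orthogonal to `e`. -/
structure Chart (K : Set E3) (x e : E3) (c r : ℝ) : Prop where
  mem : x ∈ frontier K
  norm_e : ‖e‖ = 1
  c_pos : 0 < c
  r_pos : 0 < r
  normal : ∀ y ∈ frontier K, dist y x < r → ∀ u, IsNormal K y u → c ≤ inner ℝ e u

namespace Frame

variable {e : E3} (F : Frame e)

lemma inner_j (z : ℂ) (u : E3) : (inner ℝ (F.j z) u : ℝ) = inner ℝ (F.j z) (F.j (F.p u)) := by
  conv_lhs => rw [F.split u]
  rw [inner_add_right, inner_smul_right, real_inner_comm e (F.j z), F.ej, mul_zero, add_zero]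

lemma abs_inner_j_le (z : ℂ) (u : E3) : |(inner ℝ (F.j z) u : ℝ)| ≤ ‖z‖ * ‖F.p u‖ := by
  rw [F.inner_j]
  refine (abs_real_inner_le_norm _ _).trans ?_
  rw [F.norm_j, F.norm_j]

lemma key {c : ℝ} (hc : 0 < c) {u w : E3} (hu : ‖u‖ = 1) (hs : c ≤ inner ℝ e u)
    (hw : (0 : ℝ) ≤ inner ℝ e w) (huw : inner ℝ w u ≤ (0 : ℝ)) : c * ‖w‖ ≤ ‖F.p w‖ := by
  set s : ℝ := inner ℝ e u with hsdef
  set α : ℝ := inner ℝ e w with hα
  have h1 : inner ℝ w u = (inner ℝ (F.j (F.p w)) u : ℝ) + α * s := by
    conv_lhs => rw [F.split w]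
    rw [inner_add_left, inner_smul_left]
    simp [hα, hsdef]
  have h2 := F.abs_inner_j_le (F.p w) u
  have h3 : ‖F.p u‖ ^ 2 = 1 - s ^ 2 := by
    rw [F.norm_p, hu]
    ring
  have h4 : ‖F.p w‖ ^ 2 = ‖w‖ ^ 2 - α ^ 2 := F.norm_p w
  have h5 : α * s ≤ ‖F.p w‖ * ‖F.p u‖ := by
    have := neg_abs_le (inner ℝ (F.j (F.p w)) u : ℝ)
    linarith
  have hs0 : 0 < s := hc.trans_le hs
  have h6 : (α * s) ^ 2 ≤ (‖F.p w‖ * ‖F.p u‖) ^ 2 := pow_le_pow_left₀ (by positivity) h5 2
  rw [mul_pow, mul_pow, h3] at h6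
  have h7 : s ^ 2 * ‖w‖ ^ 2 ≤ ‖F.p w‖ ^ 2 := by nlinarith
  have h8 : (c * ‖w‖) ^ 2 ≤ ‖F.p w‖ ^ 2 := by
    rw [mul_pow]
    refine le_trans ?_ h7
    have : c ^ 2 ≤ s ^ 2 := pow_le_pow_left₀ hc.le hs 2
    nlinarith [sq_nonneg ‖w‖]
  exact le_of_sq_le_sq h8 (norm_nonneg _)

end Frame

end Pool.Agent.H886R2.Eps
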