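import Pool.Agent.H886R2.Eps.Chart

/-!
# Most points of the boundary of a convex body are nearly flat at a small scale
-/

set_option autoImplicit false

open MeasureTheory Set Metric Module Filter Topology
open scoped ENNReal NNReal

namespace Pool.Agent.H886R2.Eps

variable {K : Set E3}

/-- the boundary points near which all normals are nearly parallel -/
def good (K : Set E3) (c r : ℝ) : Set E3 :=
  {x | x ∈ frontier K ∧ ∀ y ∈ frontier K, ∀ z ∈ frontier K, dist y x < r → dist z x < r →
    ∀ u v, IsNormal K y u → IsNormal K z v → c ≤ inner ℝ u v}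

lemma good_chart (hK : IsConvexBody K) {c r : ℝ} (hc : 0 < c) (hr : 0 < r) {x : E3}
    (hx : x ∈ good K c r) : ∃ e, Chart K x e c r := by
  obtain ⟨e, he⟩ := hK.exists_normal hx.1
  exact ⟨e, hx.1, he.1, hc, hr, fun y hy hyx u hu =>
    hx.2 x hx.1 y hy (by simpa using hr) hyx e u he hu⟩

lemma isClosed_good (c r : ℝ) : IsClosed (good K c r) := by
  have h : good K c r = frontier K ∩ ⋂ (y ∈ frontier K) (z ∈ frontier K) (u : E3) (v : E3)
      (_ : IsNormal K y u ∧ IsNormal K z v ∧ ¬ c ≤ inner ℝ u v),
      {x | dist y x < r ∧ dist z x < r}ᶜ := by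
    ext x
    simp only [good, mem_ofPred_eq, mem_inter_iff, mem_iInter, mem_compl_iff]
    constructor
    · rintro ⟨h1, h2⟩
      refine ⟨h1, fun y hy z hz u v huv hd => ?_⟩
      exact huv.2.2 (h2 y hy z hz hd.1 hd.2 u v huv.1 huv.2.1)
    · rintro ⟨h1, h2⟩
      refine ⟨h1, fun y hy z hz hyx hzx u v hu hv => ?_⟩
      by_contra hcon
      exact h2 y hy z hz u v ⟨hu, hv, hcon⟩ ⟨hyx, hzx⟩
  rw [h]
  refine isClosed_frontier.inter ?_
  refine isClosed_iInter fun y => isClosed_iInter fun _ => isClosed_iInter fun z =>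
    isClosed_iInter fun _ => isClosed_iInter fun u => isClosed_iInter fun v =>
    isClosed_iInter fun _ => ?_
  rw [isClosed_compl_iff]
  exact (isOpen_lt (continuous_const.dist continuous_id) continuous_const).inter
    (isOpen_lt (continuous_const.dist continuous_id) continuous_const)

lemma good_anti {c r r' : ℝ} (h : r' ≤ r) : good K c r ⊆ good K c r' :=
  fun _ hx => ⟨hx.1, fun y hy z hz hyx hzx => hx.2 y hy z hz (hyx.trans_le h) (hzx.trans_le h)⟩

/-- a piece of the boundary in a chart has finite area -/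
lemma Chart.area_lt_top (hK : IsConvexBody K) {x e : E3} {c r : ℝ} (h : Chart K x e c r) :
    areaM (frontier K ∩ ball x r) < ⊤ := by
  obtain ⟨F⟩ := exists_frame e h.norm_e
  refine (areaM_le F _ c h.c_pos fun y hy z hz => ?_).trans_lt ?_
  · exact h.le_norm hK F hy.1 hz.1 hy.2 hz.2
  · refine ENNReal.mul_lt_top ENNReal.ofReal_lt_top ?_
    have hb : Bornology.IsBounded (F.p '' (frontier K ∩ ball x r)) :=
      F.lipschitz.isBounded_image (isBounded_ball.subset inter_subset_right)
    exact hb.measure_lt_top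

/-- the boundary has finite area -/
lemma IsConvexBody.area_lt_top (hK : IsConvexBody K) : areaM (frontier K) < ⊤ := by
  obtain ⟨c, r, hc, hr, hch⟩ := hK.exists_chart
  obtain ⟨t, ht, hcov⟩ := hK.isCompact_frontier.elim_nhds_subcover (fun x => ball x r)
    (fun x _ => ball_mem_nhds x hr)
  have hsub : frontier K ⊆ ⋃ x ∈ t, (frontier K ∩ ball x r) := by
    intro y hy
    obtain ⟨x, hx, hyx⟩ := mem_iUnion₂.1 (hcov hy)
    exact mem_iUnion₂.2 ⟨x, hx, hy, hyx⟩
  refine (measure_mono hsub).trans_lt ((measure_biUnion_finset_le _ _).trans_lt ?_)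
  rw [ENNReal.sum_lt_top]
  intro x hx
  obtain ⟨e, he⟩ := hch x (ht x hx)
  exact he.area_lt_top hK

/-- normals at nearby points of a smooth point -/
lemma exists_good_of_unique {c : ℝ} (hc : c < 1) {x : E3}
    (hx : x ∈ frontier K) (huniq : ∀ u v, IsNormal K x u → IsNormal K x v → u = v) :
    ∃ n : ℕ, x ∈ good K c (1 / ((n : ℝ) + 1)) := by
  by_contra hcon
  push Not at hcon
  have h : ∀ n : ℕ, ∃ a : (E3 × E3) × (E3 × E3), (dist a.1.1 x < 1 / ((n : ℝ) + 1) ∧
      dist a.1.2 x < 1 / ((n : ℝ) + 1)) ∧ (IsNormal K a.1.1 a.2.1 ∧ IsNormal K a.1.2 a.2.2) ∧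
      inner ℝ a.2.1 a.2.2 < c := by
    intro n
    have := hcon n
    simp only [good, mem_ofPred_eq, not_and, hx, true_imp_iff] at this
    push Not at this
    obtain ⟨y, _, z, _, h1, h2, u, v, h3, h4, h5⟩ := this
    exact ⟨((y, z), (u, v)), ⟨h1, h2⟩, ⟨h3, h4⟩, h5⟩
  choose a h1 h2 h3 using h
  have hcpt : IsCompact (sphere (0 : E3) 1 ×ˢ sphere (0 : E3) 1) :=
    (isCompact_sphere _ _).prod (isCompact_sphere _ _)
  obtain ⟨⟨u, v⟩, -, φ, hφ, hlim⟩ := hcpt.tendsto_subseq (x := fun n => (a n).2) (fun n =>
    ⟨by simpa using (h2 n).1.1, by simpa using (h2 n).2.1⟩)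
  have hu : Tendsto (fun n => (a (φ n)).2.1) atTop (𝓝 u) :=
    (continuous_fst.tendsto (u, v)).comp hlim
  have hv : Tendsto (fun n => (a (φ n)).2.2) atTop (𝓝 v) :=
    (continuous_snd.tendsto (u, v)).comp hlim
  have hto : Tendsto (fun n : ℕ => 1 / ((n : ℝ) + 1)) atTop (𝓝 0) :=
    tendsto_one_div_add_atTop_nhds_zero_nat
  have hy : Tendsto (fun n => (a (φ n)).1.1) atTop (𝓝 x) := by
    rw [tendsto_iff_dist_tendsto_zero]
    exact squeeze_zero (fun _ => dist_nonneg) (fun n => (h1 (φ n)).1.le)
      (hto.comp hφ.tendsto_atTop)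
  have hz : Tendsto (fun n => (a (φ n)).1.2) atTop (𝓝 x) := by
    rw [tendsto_iff_dist_tendsto_zero]
    exact squeeze_zero (fun _ => dist_nonneg) (fun n => (h1 (φ n)).2.le)
      (hto.comp hφ.tendsto_atTop)
  have hnu : IsNormal K x u := by
    refine ⟨?_, fun k hk => ?_⟩
    · exact tendsto_nhds_unique hu.norm (by simp [(h2 _).1.1])
    · refine le_of_tendsto ((tendsto_const_nhds.sub hy).inner hu)
        (Eventually.of_forall fun n => (h2 (φ n)).1.2 k hk)
  have hnv : IsNormal K x v := by
    refine ⟨?_, fun k hk => ?_⟩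
    · exact tendsto_nhds_unique hv.norm (by simp [(h2 _).2.1])
    · refine le_of_tendsto ((tendsto_const_nhds.sub hz).inner hv)
        (Eventually.of_forall fun n => (h2 (φ n)).2.2 k hk)
  have huv := huniq u v hnu hnv
  have hlim2 : inner ℝ u v ≤ c :=
    le_of_tendsto (hu.inner hv) (Eventually.of_forall fun n => (h3 (φ n)).le)
  rw [← huv, real_inner_self_eq_norm_sq, hnu.1] at hlim2
  linarith

/-- the boundary points with more than one normal have area zero -/
lemma area_nonsmooth (hK : IsConvexBody K) :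
    areaM {x | x ∈ frontier K ∧ ∃ u v, IsNormal K x u ∧ IsNormal K x v ∧ u ≠ v} = 0 := by
  obtain ⟨P, hP, hP2⟩ := hK.exists_proj
  obtain ⟨D, hDc, hDd⟩ := TopologicalSpace.exists_countable_dense E3
  let B := EuclideanSpace.basisFun (Fin 3) ℝ
  have hsub : {x | x ∈ frontier K ∧ ∃ u v, IsNormal K x u ∧ IsNormal K x v ∧ u ≠ v} ⊆
      ⋃ (a ∈ D) (i : Fin 3), range (fun t : ℝ => P (a + t • B i)) := by
    rintro x ⟨hx, u, v, hu, hv, huv⟩
    -- `u`, `v` are linearly independent
    have hli : LinearIndependent ℝ ![u, v] := by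
      rw [LinearIndependent.pair_iff' (by intro h; simpa [h] using hu.1)]
      intro s hs
      have hs1 : |s| = 1 := by
        have := congrArg norm hs
        rw [norm_smul, hu.1, hv.1, mul_one, Real.norm_eq_abs] at this
        exact this
      rcases eq_or_eq_neg_of_abs_eq hs1 with rfl | rfl
      · exact huv (by simpa using hs)
      · -- `v = -u`: the body lies in a plane
        obtain ⟨o, ho⟩ := hK.interior_nonempty
        obtain ⟨ε, hε, hb⟩ := Metric.isOpen_iff.1 isOpen_interior o ho
        have h1 := hu.2 o (interior_subset ho)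
        have h2 : o + (ε / 2) • u ∈ K := by
          apply interior_subset
          apply hb
          rw [mem_ball, dist_eq_norm, add_sub_cancel_left, norm_smul, hu.1, mul_one,
            Real.norm_eq_abs, abs_of_pos (by linarith)]
          linarith
        have h3 := hu.2 _ h2
        have h4 := hv.2 o (interior_subset ho)
        rw [← hs, neg_smul, one_smul, inner_neg_right] at h4
        have h5 : inner ℝ (o + (ε / 2) • u - x) u = (inner ℝ (o - x) u : ℝ) + ε / 2 := by
          have e1 : o + (ε / 2) • u - x = (o - x) + (ε / 2) • u := by abel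
          rw [e1, inner_add_left, inner_smul_left, real_inner_self_eq_norm_sq, hu.1]
          simp
        linarith
    -- a basis vector outside the plane
    obtain ⟨i, hi⟩ : ∃ i, B i ∉ Submodule.span ℝ (range ![u, v]) := by
      by_contra hcon
      push Not at hcon
      have h1 : (⊤ : Submodule ℝ E3) ≤ Submodule.span ℝ (range ![u, v]) := by
        rw [← B.toBasis.span_eq, Submodule.span_le]
        rintro _ ⟨i, rfl⟩
        simpa using hcon i
      have h2 := Submodule.finrank_mono h1
      have h3 := finrank_range_le_card (R := ℝ) (b := ![u, v])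
      rw [finrank_top] at h2
      simp [Set.finrank] at h2 h3
      omega
    have hli3 : LinearIndependent ℝ ![B i, u, v] := linearIndependent_finCons.2 ⟨hli, hi⟩
    let b := basisOfLinearIndependentOfCardEqFinrank hli3 (by simp)
    have hb : ∀ j, b j = ![B i, u, v] j := fun j => by simp [b]
    let W : Set E3 := {a | 0 < b.coord 1 (a - x) ∧ 0 < b.coord 2 (a - x)}
    have hW : IsOpen W := by
      have hc1 : Continuous fun a : E3 => b.coord 1 (a - x) :=
        (LinearMap.continuous_of_finiteDimensional (b.coord 1)).comp (continuous_id.sub continuous_const)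
      have hc2 : Continuous fun a : E3 => b.coord 2 (a - x) :=
        (LinearMap.continuous_of_finiteDimensional (b.coord 2)).comp (continuous_id.sub continuous_const)
      exact (isOpen_lt continuous_const hc1).inter (isOpen_lt continuous_const hc2)
    have hWne : W.Nonempty := by
      refine ⟨x + (b 1 + b 2), ?_, ?_⟩
      · rw [add_sub_cancel_left, map_add]
        simp
      · rw [add_sub_cancel_left, map_add]
        simp
    obtain ⟨a, haW, haD⟩ := hDd.inter_open_nonempty W hW hWne
    refine mem_iUnion₂.2 ⟨a, haD, mem_iUnion.2 ⟨i, -(b.coord 0 (a - x)), ?_⟩⟩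
    have hsum := b.sum_repr (a - x)
    rw [Fin.sum_univ_three, hb, hb, hb] at hsum
    simp only [Matrix.cons_val_zero, Matrix.cons_val_one, Matrix.cons_val] at hsum
    have e1 : a + (-(b.coord 0 (a - x))) • B i =
        x + (b.coord 1 (a - x) • u + b.coord 2 (a - x) • v) := by
      simp only [Basis.coord_apply]
      generalize (b.repr (a - x)) 0 = r0 at hsum ⊢
      generalize (b.repr (a - x)) 1 = r1 at hsum ⊢
      generalize (b.repr (a - x)) 2 = r2 at hsum ⊢
      calc a + (-r0) • B i = x + (a - x) + (-r0) • B i := by abel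
        _ = x + (r0 • B i + r1 • u + r2 • v) + (-r0) • B i := by rw [hsum]
        _ = _ := by module
    change P (a + (-(b.coord 0 (a - x))) • B i) = x
    rw [e1]
    refine proj_eq_of_cone hP hP2 (hK.frontier_subset hx) fun k hk => ?_
    rw [inner_add_right, inner_smul_right, inner_smul_right]
    have h1 := hu.2 k hk
    have h2 := hv.2 k hk
    have h3 := haW.1
    have h4 := haW.2
    nlinarith
  refine measure_mono_null hsub ?_
  rw [measure_biUnion_null_iff hDc]
  intro a _
  rw [measure_iUnion_null_iff]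
  intro i
  have hlip : LipschitzWith 1 (fun t : ℝ => P (a + t • B i)) := by
    have h1 : LipschitzWith 1 (fun t : ℝ => a + t • B i) := by
      refine LipschitzWith.of_dist_le_mul fun s t => ?_
      rw [dist_eq_norm, add_sub_add_left_eq_sub, ← sub_smul, norm_smul]
      simp [B, dist_eq_norm]
    have h2 := (proj_lipschitz hP hP2).comp h1
    rw [one_mul] at h2
    exact h2
  have h1 := hlip.hausdorffMeasure_image_le zero_le_two univ
  rw [image_univ] at h1
  have h2 : (μH[2] : Measure ℝ) univ = 0 := by
    have := hausdorffMeasure_of_dimH_lt (s := (univ : Set ℝ)) (d := 2) (by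
      rw [Real.dimH_univ]
      norm_num)
    simpa using this
  rw [h2, mul_zero] at h1
  unfold areaM
  rw [Measure.smul_apply, le_antisymm h1 bot_le, smul_zero]

/-- at a small scale, most of the boundary is nearly flat -/
lemma exists_good (hK : IsConvexBody K) {c : ℝ} (hc : c < 1) {η : ℝ≥0∞} (hη : 0 < η) :
    ∃ r : ℝ, 0 < r ∧ areaM (frontier K \ good K c r) < η := by
  have hanti : Antitone fun n : ℕ => frontier K \ good K c (1 / ((n : ℝ) + 1)) := by
    intro m n hmn x hx
    refine ⟨hx.1, fun h => hx.2 (good_anti ?_ h)⟩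
    have : (m : ℝ) ≤ n := by exact_mod_cast hmn
    gcongr
  have hmeas : ∀ n : ℕ, NullMeasurableSet (frontier K \ good K c (1 / ((n : ℝ) + 1))) areaM :=
    fun n => (isClosed_frontier.measurableSet.diff (isClosed_good _ _).measurableSet)
      |>.nullMeasurableSet
  have hlim := tendsto_measure_iInter_atTop (μ := areaM) hmeas hanti
    ⟨0, ((measure_mono sdiff_subset).trans_lt hK.area_lt_top).ne⟩
  have hzero : areaM (⋂ n : ℕ, frontier K \ good K c (1 / ((n : ℝ) + 1))) = 0 := by
    refine measure_mono_null ?_ (area_nonsmooth hK)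
    intro x hx
    rw [mem_iInter] at hx
    refine ⟨(hx 0).1, ?_⟩
    by_contra hcon
    push Not at hcon
    obtain ⟨n, hn⟩ := exists_good_of_unique hc (hx 0).1 hcon
    exact (hx n).2 hn
  rw [hzero] at hlim
  obtain ⟨n, hn⟩ := (hlim.eventually (gt_mem_nhds hη)).exists
  exact ⟨1 / ((n : ℝ) + 1), by positivity, hn⟩

end Pool.Agent.H886R2.Eps
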