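import Pool.Agent.H886R2.Eps.Connect

/-!
# The upper bound
-/

set_option autoImplicit false

open MeasureTheory Set Metric Module Filter Topology
open scoped ENNReal NNReal

namespace Pool.Agent.H886R2.Eps

variable {K : Set E3}

/-- efficient walk over the part of the boundary above a square in a chart -/
lemma chart_square (hK : IsConvexBody K) {x e : E3} {c r : ℝ} (h : Chart K x e c r)
    (F : Frame e) {a b t : ℝ} (ht : 0 < t) (hsq : ∀ q ∈ sq a b t, ‖q‖ * (1 + c⁻¹) < r)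
    {ε : ℝ} (hε : 0 < ε) : ∃ z w T, Walk (frontier K)
      (t ^ 2 / (2 * c ^ 2 * ε) + 3 * t / c + 4 * ε) z w T ∧
      ∀ y ∈ frontier K, dist y x < r → F.p (y - x) ∈ sq a b t →
        ∃ z ∈ T, intrinsicDist (frontier K) y z ≤ ENNReal.ofReal ε := by
  have hc := h.c_pos
  obtain ⟨σ, hσ1, hσ2, hσ3⟩ := h.exists_section hK F
  obtain ⟨z, w, T, hw, hT⟩ := zigzag a b t (2 * c * ε) ht (by positivity)
  have hmap := hw.map (S' := frontier K) (σ := σ) hc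
    (fun p hp q hq => hσ2 p q (hsq p hp) (hsq q hq)) (fun p hp => (hσ1 p (hsq p hp)).1)
  refine ⟨_, _, _, hmap.mono (le_of_eq ?_) subset_rfl, ?_⟩
  · field_simp
    ring
  · intro y hy hyx hyq
    obtain ⟨q', hq'T, hq', hd⟩ := hT _ hyq
    refine ⟨σ q', ⟨q', hq'T, rfl⟩, ?_⟩
    have hseg := walk_segment (C := sq a b t) _ _ ((convex_sq a b t).segment_subset hyq hq')
    have hmap2 := hseg.map (S' := frontier K) (σ := σ) hc
      (fun p hp q hq => hσ2 p q (hsq p hp) (hsq q hq)) (fun p hp => (hσ1 p (hsq p hp)).1)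
    rw [hσ3 y hy hyx (hsq _ hyq)] at hmap2
    refine hmap2.intrinsicDist_le.trans (ENNReal.ofReal_le_ofReal ?_)
    calc c⁻¹ * dist (F.p (y - x)) q' ≤ c⁻¹ * (2 * c * ε / 2) := by gcongr
      _ = ε := by field_simp

/-- the data of a patch: chart, and finitely many squares of side `t` -/
lemma patch (hK : IsConvexBody K) {x e : E3} {c r s : ℝ} (h : Chart K x e c r) (hs : 0 < s)
    (hsr : 4 * s * (1 + c⁻¹) < r) {Y : Set E3} (hY : IsCompact Y) (hYK : Y ⊆ frontier K)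
    (hYs : ∀ y ∈ Y, dist y x ≤ s) {τ : ℝ} (hτ : 0 < τ) :
    ∃ (C₁ C₂ C₃ : ℝ), 0 ≤ C₁ ∧ 0 ≤ C₂ ∧ 0 ≤ C₃ ∧ C₁ ≤ ((areaM Y).toReal + τ) / (2 * c ^ 2) ∧
      ∃ (I : Finset (ℤ × ℤ)), ∀ ε : ℝ, 0 < ε → ∃ (ℓ : ℤ × ℤ → ℝ) (T : ℤ × ℤ → Set E3),
        (∀ i ∈ I, ∃ z w, Walk (frontier K) (ℓ i) z w (T i)) ∧
        ∑ i ∈ I, ℓ i ≤ C₁ / ε + C₂ + C₃ * ε ∧
        ∀ y ∈ Y, ∃ i ∈ I, ∃ z ∈ T i, intrinsicDist (frontier K) y z ≤ ENNReal.ofReal ε := by
  classical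
  have hc := h.c_pos
  obtain ⟨F⟩ := exists_frame e h.norm_e
  have hc1 := h.c_le_one hK
  have hsr' : s < r := by
    have : 1 ≤ 1 + c⁻¹ := by have : 0 < c⁻¹ := by positivity
                             linarith
    nlinarith
  set D : Set ℂ := (fun y => F.p (y - x)) '' Y with hD
  have hDc : IsCompact D := hY.image (F.p.continuous.comp (continuous_id.sub continuous_const))
  have hvol : volume D ≤ areaM Y := by
    have e1 : D = (fun z : ℂ => (-F.p x) + z) '' (F.p '' Y) := by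
      rw [hD, image_image]
      refine image_congr fun y _ => ?_
      rw [map_sub]
      ring
    have e2 : volume ((fun z : ℂ => (-F.p x) + z) '' (F.p '' Y)) = volume (F.p '' Y) := by
      rw [image_add_left, neg_neg, measure_preimage_add]
    rw [e1, e2]
    exact volume_proj_le F Y
  obtain ⟨t, ht, hts, I, hI1, hI2, hI3⟩ := grid D hDc τ hτ s hs
  have hYfin : areaM Y ≠ ⊤ := ((measure_mono hYK).trans_lt hK.area_lt_top).ne
  have hcard : (I.card : ℝ) * t ^ 2 ≤ (areaM Y).toReal + τ := by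
    have h1 := ENNReal.toReal_mono (ENNReal.add_ne_top.2 ⟨hYfin, ENNReal.ofReal_ne_top⟩)
      (hI3.trans (add_le_add_left hvol (ENNReal.ofReal τ)))
    rwa [ENNReal.toReal_ofReal (by positivity), ENNReal.toReal_add hYfin ENNReal.ofReal_ne_top,
      ENNReal.toReal_ofReal hτ.le] at h1
  have hsq : ∀ k ∈ I, ∀ q ∈ sq (k.1 * t) (k.2 * t) t, ‖q‖ * (1 + c⁻¹) < r := by
    intro k hk q hq
    obtain ⟨w, hw, hwD⟩ := hI1 k hk
    obtain ⟨y, hy, rfl⟩ := hwD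
    rw [mem_cell_iff ht] at hw
    simp only at hw
    have h1 : ‖F.p (y - x)‖ ≤ s := by
      refine (F.norm_p_le _).trans ?_
      rw [← dist_eq_norm]
      exact hYs y hy
    have h2 : ‖q - F.p (y - x)‖ ≤ 2 * t := by
      refine (Complex.norm_le_abs_re_add_abs_im _).trans ?_
      have h3 : |(q - F.p (y - x)).re| ≤ t := by
        rw [Complex.sub_re, abs_le]
        constructor <;> linarith [hw.1.1, hw.1.2, hq.1.1, hq.1.2]
      have h4 : |(q - F.p (y - x)).im| ≤ t := by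
        rw [Complex.sub_im, abs_le]
        constructor <;> linarith [hw.2.1, hw.2.2, hq.2.1, hq.2.2]
      linarith
    have h5 : ‖q‖ ≤ 4 * s := by
      have : q = (q - F.p (y - x)) + F.p (y - x) := by ring
      rw [this]
      refine (norm_add_le _ _).trans ?_
      linarith
    have h6 : 0 < 1 + c⁻¹ := by positivity
    calc ‖q‖ * (1 + c⁻¹) ≤ 4 * s * (1 + c⁻¹) := by gcongr
      _ < r := hsr
  refine ⟨I.card * t ^ 2 / (2 * c ^ 2), I.card * (3 * t / c), I.card * 4, by positivity,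
    by positivity, by positivity, by gcongr, I, fun ε hε => ?_⟩
  have hex : ∀ k : ℤ × ℤ, ∃ T : Set E3, k ∈ I → (∃ z w, Walk (frontier K)
      (t ^ 2 / (2 * c ^ 2 * ε) + 3 * t / c + 4 * ε) z w T) ∧
      ∀ y ∈ frontier K, dist y x < r → F.p (y - x) ∈ sq (k.1 * t) (k.2 * t) t →
        ∃ z ∈ T, intrinsicDist (frontier K) y z ≤ ENNReal.ofReal ε := by
    intro k
    by_cases hk : k ∈ I
    · obtain ⟨z, w, T, h1, h2⟩ := chart_square hK h F ht (hsq k hk) hε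
      exact ⟨T, fun _ => ⟨⟨z, w, h1⟩, h2⟩⟩
    · exact ⟨∅, fun h' => absurd h' hk⟩
  choose T hT using hex
  refine ⟨fun _ => t ^ 2 / (2 * c ^ 2 * ε) + 3 * t / c + 4 * ε, T, fun i hi => (hT i hi).1, ?_, ?_⟩
  · rw [Finset.sum_const, nsmul_eq_mul]
    apply le_of_eq
    field_simp
  · intro y hy
    obtain ⟨k, hk, hyk⟩ := hI2 (F.p (y - x)) ⟨y, hy, rfl⟩
    refine ⟨k, hk, (hT k hk).2 y (hYK hy) ((hYs y hy).trans_lt hsr') ?_⟩
    rw [mem_cell_iff ht] at hyk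
    exact ⟨⟨hyk.1.1, hyk.1.2.le⟩, ⟨hyk.2.1, hyk.2.2.le⟩⟩

lemma IsConvexBody.frontier_nonempty (hK : IsConvexBody K) : (frontier K).Nonempty := by
  obtain ⟨o, ho⟩ := hK.interior_nonempty
  obtain ⟨R, hR⟩ := hK.compact.isBounded.subset_closedBall o
  obtain ⟨u, hu, -, -⟩ := exists_orth 0 0
  have hout : o + (|R| + 1) • u ∉ K := by
    intro h
    have h1 := hR h
    rw [mem_closedBall, dist_eq_norm, add_sub_cancel_left, norm_smul, hu, mul_one,
      Real.norm_eq_abs, abs_of_pos (by positivity)] at h1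
    linarith [le_abs_self R]
  obtain ⟨y, -, hy⟩ := exists_frontier_segment (interior_subset ho) hout
  exact ⟨y, hy⟩

/-- The upper bound. -/
lemma upper (hK : IsConvexBody K) {θ : ℝ} (hθ : 0 < θ) : ∃ ε₀ : ℝ, 0 < ε₀ ∧ ∀ ε, 0 < ε → ε < ε₀ →
    ∃ c : ℝ → E3, IsDenseCurve (frontier K) ε c ∧
      eVariationOn c (Icc 0 1) ≤ ENNReal.ofReal (((areaM (frontier K)).toReal / 2 + θ) / ε) := by
  classical
  set A := (areaM (frontier K)).toReal with hA
  have hA0 : 0 ≤ A := ENNReal.toReal_nonneg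
  obtain ⟨c₀, r₀, hc₀, hr₀, hch⟩ := hK.exists_chart
  obtain ⟨D, hD0, hD⟩ := hK.exists_walk
  -- the constant `γ`
  obtain ⟨γ, hγ0, hγ1, hγA⟩ : ∃ γ : ℝ, 1 / 2 < γ ∧ γ < 1 ∧ γ⁻¹ ^ 2 * A < A + θ / 4 := by
    have h1 : Tendsto (fun x : ℝ => x⁻¹ ^ 2 * A) (𝓝[<] 1) (𝓝 A) := by
      have h2 : ContinuousAt (fun x : ℝ => x⁻¹ ^ 2 * A) 1 := by
        have : ContinuousAt (fun x : ℝ => x⁻¹) 1 := continuousAt_inv₀ one_ne_zero
        exact (this.pow 2).mul continuousAt_const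
      have h3 := h2.tendsto.mono_left (nhdsWithin_le_nhds (s := Iio 1))
      simpa using h3
    have h4 := h1.eventually (gt_mem_nhds (show A < A + θ / 4 by linarith))
    have h5 : ∀ᶠ x : ℝ in 𝓝[<] 1, 1 / 2 < x :=
      nhdsWithin_le_nhds (lt_mem_nhds (by norm_num))
    obtain ⟨γ, h6, h7, h8⟩ := (h4.and (h5.and self_mem_nhdsWithin)).exists
    exact ⟨γ, h7, h8, h6⟩
  have hγ0' : 0 < γ := by linarith
  have hγ4 : γ⁻¹ ^ 2 ≤ 4 := by
    have h1 : γ⁻¹ ≤ 2 := by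
      rw [inv_le_comm₀ hγ0' (by norm_num)]
      linarith
    have h2 : 0 ≤ γ⁻¹ := by positivity
    nlinarith
  set τ := θ / (4 * (4 + 2 * c₀⁻¹ ^ 2)) with hτ
  have hτ0 : 0 < τ := by positivity
  have hτθ : (4 + 2 * c₀⁻¹ ^ 2) * τ = θ / 4 := by rw [hτ]; field_simp
  obtain ⟨r, hr, hgood⟩ := exists_good hK hγ1 (η := ENNReal.ofReal τ) (by simp [hτ0])
  -- the scale
  obtain ⟨s, hs, hs1, hs2⟩ : ∃ s : ℝ, 0 < s ∧ 4 * s * (1 + γ⁻¹) < r ∧
      4 * s * (1 + c₀⁻¹) < r₀ := by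
    refine ⟨min (r / (8 * (1 + γ⁻¹))) (r₀ / (8 * (1 + c₀⁻¹))), by positivity, ?_, ?_⟩
    · have h1 : 0 < 1 + γ⁻¹ := by positivity
      calc 4 * min (r / (8 * (1 + γ⁻¹))) (r₀ / (8 * (1 + c₀⁻¹))) * (1 + γ⁻¹)
          ≤ 4 * (r / (8 * (1 + γ⁻¹))) * (1 + γ⁻¹) := by gcongr; exact min_le_left _ _
        _ = r / 2 := by field_simp; ring
        _ < r := by linarith
    · have h1 : 0 < 1 + c₀⁻¹ := by positivity
      calc 4 * min (r / (8 * (1 + γ⁻¹))) (r₀ / (8 * (1 + c₀⁻¹))) * (1 + c₀⁻¹)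
          ≤ 4 * (r₀ / (8 * (1 + c₀⁻¹))) * (1 + c₀⁻¹) := by gcongr; exact min_le_right _ _
        _ = r₀ / 2 := by field_simp; ring
        _ < r₀ := by linarith
  obtain ⟨n, P, hPc, hPK, hPs, hPcov, hPdisj⟩ :=
    exists_pieces hK.isCompact_frontier areaM hK.area_lt_top hs
  have hPfin : ∀ k, areaM (P k) ≠ ⊤ := fun k =>
    ((measure_mono (hPK k)).trans_lt hK.area_lt_top).ne
  set a : Fin n → ℝ := fun k => (areaM (P k)).toReal with ha
  have ha0 : ∀ k, 0 ≤ a k := fun k => ENNReal.toReal_nonneg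
  -- sums over subfamilies
  have hsum : ∀ (J : Finset (Fin n)) (B : Set E3), (∀ k ∈ J, P k ⊆ B) → areaM B ≠ ⊤ →
      ∑ k ∈ J, a k ≤ (areaM B).toReal := by
    intro J B hJB hB
    have h1 : areaM (⋃ k ∈ J, P k) = ∑ k ∈ J, areaM (P k) := by
      apply measure_biUnion_finset₀
      · intro j _ k _ hjk
        exact hPdisj hjk
      · intro k _
        exact (hPc k).isClosed.measurableSet.nullMeasurableSet
    have h2 : ∑ k ∈ J, a k = (areaM (⋃ k ∈ J, P k)).toReal := by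
      rw [h1, ENNReal.toReal_sum fun k _ => hPfin k]
    rw [h2]
    exact ENNReal.toReal_mono hB (measure_mono (iUnion₂_subset hJB))
  set τ' := τ / (n + 1) with hτ'
  have hτ'0 : 0 < τ' := by positivity
  have hnτ : n * τ' ≤ τ := by
    rw [hτ', ← mul_div_assoc, div_le_iff₀ (by positivity)]
    nlinarith
  set w : Fin n → ℝ := fun k => if (P k ∩ good K γ r).Nonempty then (a k + τ') / (2 * γ ^ 2)
    else (a k + τ') / (2 * c₀ ^ 2) with hw
  have hw0 : ∀ k, 0 ≤ w k := by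
    intro k
    simp only [hw]
    have := ha0 k
    split_ifs <;> positivity
  have hpatch : ∀ k : Fin n, ∃ (C₁ C₂ C₃ : ℝ) (I : Finset (ℤ × ℤ)), 0 ≤ C₁ ∧ 0 ≤ C₂ ∧ 0 ≤ C₃ ∧
      C₁ ≤ w k ∧ ∀ ε : ℝ, 0 < ε → ∃ (ℓ : ℤ × ℤ → ℝ) (T : ℤ × ℤ → Set E3),
        (∀ i ∈ I, ∃ z w, Walk (frontier K) (ℓ i) z w (T i)) ∧
        ∑ i ∈ I, ℓ i ≤ C₁ / ε + C₂ + C₃ * ε ∧
        ∀ y ∈ P k, ∃ i ∈ I, ∃ z ∈ T i, intrinsicDist (frontier K) y z ≤ ENNReal.ofReal ε := by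
    intro k
    by_cases h1 : (P k ∩ good K γ r).Nonempty
    · obtain ⟨x, hx, hxg⟩ := h1
      obtain ⟨e, he⟩ := good_chart hK hγ0' hr hxg
      obtain ⟨C₁, C₂, C₃, h2, h3, h4, h5, I, h6⟩ := patch hK he hs hs1 (hPc k) (hPK k)
        (fun y hy => hPs k y hy x hx) hτ'0
      refine ⟨C₁, C₂, C₃, I, h2, h3, h4, ?_, h6⟩
      simp only [hw, if_pos (show (P k ∩ good K γ r).Nonempty from ⟨x, hx, hxg⟩)]
      exact h5
    · rcases (P k).eq_empty_or_nonempty with h2 | ⟨x, hx⟩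
      · refine ⟨0, 0, 0, ∅, le_rfl, le_rfl, le_rfl, hw0 k, fun ε hε => ⟨0, fun _ => ∅, ?_, ?_, ?_⟩⟩
        · simp
        · simp
        · intro y hy
          rw [h2] at hy
          exact absurd hy (notMem_empty y)
      · obtain ⟨e, he⟩ := hch x (hPK k hx)
        obtain ⟨C₁, C₂, C₃, h2, h3, h4, h5, I, h6⟩ := patch hK he hs hs2 (hPc k) (hPK k)
          (fun y hy => hPs k y hy x hx) hτ'0
        refine ⟨C₁, C₂, C₃, I, h2, h3, h4, ?_, h6⟩
        simp only [hw, if_neg h1]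
        exact h5
  choose C₁ C₂ C₃ I hC₁ hC₂ hC₃ hC₁w hI using hpatch
  -- the main term
  have hmain : ∑ k, C₁ k ≤ A / 2 + θ / 4 := by
    have h1 : ∑ k, C₁ k ≤ ∑ k, w k := Finset.sum_le_sum fun k _ => hC₁w k
    have h2 : ∑ k, w k ≤ ∑ k, (a k + τ') * γ⁻¹ ^ 2 / 2 +
        ∑ k ∈ Finset.univ.filter (fun k => ¬ (P k ∩ good K γ r).Nonempty),
          (a k + τ') * c₀⁻¹ ^ 2 / 2 := by
      rw [Finset.sum_filter, ← Finset.sum_add_distrib]
      refine Finset.sum_le_sum fun k _ => ?_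
      simp only [hw]
      have h3 := ha0 k
      have e1 : (a k + τ') / (2 * γ ^ 2) = (a k + τ') * γ⁻¹ ^ 2 / 2 := by field_simp
      have e2 : (a k + τ') / (2 * c₀ ^ 2) = (a k + τ') * c₀⁻¹ ^ 2 / 2 := by field_simp
      by_cases h4 : (P k ∩ good K γ r).Nonempty
      · rw [if_pos h4, if_neg (not_not.2 h4), e1, add_zero]
      · rw [if_neg h4, if_pos h4, e2]
        have : 0 ≤ (a k + τ') * γ⁻¹ ^ 2 / 2 := by positivity
        linarith
    have h3 : ∑ k, (a k + τ') * γ⁻¹ ^ 2 / 2 ≤ (A + τ) * γ⁻¹ ^ 2 / 2 := by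
      rw [← Finset.sum_div, ← Finset.sum_mul, Finset.sum_add_distrib, Finset.sum_const,
        Finset.card_univ, Fintype.card_fin, nsmul_eq_mul]
      have := hsum Finset.univ (frontier K) (fun k _ => hPK k) hK.area_lt_top.ne
      gcongr
    have h4 : ∑ k ∈ Finset.univ.filter (fun k => ¬ (P k ∩ good K γ r).Nonempty),
        (a k + τ') * c₀⁻¹ ^ 2 / 2 ≤ (τ + τ) * c₀⁻¹ ^ 2 / 2 := by
      rw [← Finset.sum_div, ← Finset.sum_mul, Finset.sum_add_distrib, Finset.sum_const,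
        nsmul_eq_mul]
      have h5 : ∑ k ∈ Finset.univ.filter (fun k => ¬ (P k ∩ good K γ r).Nonempty), a k ≤ τ := by
        refine (hsum _ (frontier K \ good K γ r) ?_ (hgood.trans_le le_top).ne).trans ?_
        · intro k hk y hy
          rw [Finset.mem_filter] at hk
          exact ⟨hPK k hy, fun h => hk.2 ⟨y, hy, h⟩⟩
        · have := ENNReal.toReal_mono ENNReal.ofReal_ne_top hgood.le
          rwa [ENNReal.toReal_ofReal hτ0.le] at this
      have h6 : ((Finset.univ.filter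
          (fun k => ¬ (P k ∩ good K γ r).Nonempty)).card : ℝ) * τ' ≤ τ := by
        refine le_trans ?_ hnτ
        have : ((Finset.univ.filter
          (fun k => ¬ (P k ∩ good K γ r).Nonempty)).card : ℝ) ≤ n := by
          have h7 := Finset.card_filter_le (Finset.univ : Finset (Fin n))
            (fun k => ¬ (P k ∩ good K γ r).Nonempty)
          rw [Finset.card_univ, Fintype.card_fin] at h7
          exact_mod_cast h7
        gcongr
      gcongr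
    have h5 : (A + τ) * γ⁻¹ ^ 2 ≤ A + θ / 4 + 4 * τ := by
      have : τ * γ⁻¹ ^ 2 ≤ τ * 4 := by gcongr
      nlinarith
    have h6 : 4 * τ + (τ + τ) * c₀⁻¹ ^ 2 = θ / 4 := by
      rw [← hτθ]
      ring
    linarith
  -- the error terms
  set B₂ := ∑ k, (C₂ k + (I k).card * D) with hB₂
  set B₃ := ∑ k, C₃ k with hB₃
  have hB₂0 : 0 ≤ B₂ := Finset.sum_nonneg fun k _ => by have := hC₂ k; positivity
  have hB₃0 : 0 ≤ B₃ := Finset.sum_nonneg fun k _ => hC₃ k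
  obtain ⟨ε₀, hε₀, hε₀'⟩ : ∃ ε₀ : ℝ, 0 < ε₀ ∧ ∀ ε, 0 < ε → ε < ε₀ →
      B₂ * ε + B₃ * ε ^ 2 ≤ θ / 4 := by
    have h1 : Tendsto (fun x : ℝ => B₂ * x + B₃ * x ^ 2) (𝓝 0) (𝓝 0) := by
      have : Continuous fun x : ℝ => B₂ * x + B₃ * x ^ 2 := by fun_prop
      simpa using this.tendsto 0
    have h2 := h1.eventually (gt_mem_nhds (show (0 : ℝ) < θ / 4 by positivity))
    rw [Metric.eventually_nhds_iff] at h2
    obtain ⟨ε₀, h3, h4⟩ := h2
    refine ⟨ε₀, h3, fun ε hε hεε₀ => (h4 ?_).le⟩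
    rw [Real.dist_eq, sub_zero, abs_of_pos hε]
    exact hεε₀
  refine ⟨ε₀, hε₀, fun ε hε hεε₀ => ?_⟩
  choose ℓ T hℓT hℓs hcovk using fun k => hI k ε hε
  -- concatenation
  obtain ⟨x, y, hwalk⟩ := exists_concat hK.frontier_nonempty hD
    (Finset.univ.sigma I : Finset (Σ _ : Fin n, ℤ × ℤ)) (fun i => ℓ i.1 i.2) (fun i => T i.1 i.2)
    (by
      rintro ⟨k, i⟩ hi
      rw [Finset.mem_sigma] at hi
      exact hℓT k i hi.2)
  obtain ⟨c, hc1, hc2, -, -, hc3, hc4⟩ := hwalk.exists_curve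
  have htotal : ∑ i ∈ (Finset.univ.sigma I : Finset (Σ _ : Fin n, ℤ × ℤ)), (ℓ i.1 i.2 + D) ≤
      (A / 2 + θ) / ε := by
    rw [Finset.sum_sigma, le_div_iff₀ hε]
    have h1 : ∑ k, ∑ i ∈ I k, (ℓ k i + D) ≤ (∑ k, C₁ k) / ε + B₂ + B₃ * ε := by
      rw [Finset.sum_div, hB₂, hB₃, Finset.sum_mul, ← Finset.sum_add_distrib,
        ← Finset.sum_add_distrib]
      refine Finset.sum_le_sum fun k _ => ?_
      rw [Finset.sum_add_distrib, Finset.sum_const, nsmul_eq_mul]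
      linarith [hℓs k]
    have h2 : ((∑ k, C₁ k) / ε + B₂ + B₃ * ε) * ε = (∑ k, C₁ k) + (B₂ * ε + B₃ * ε ^ 2) := by
      field_simp
      ring
    calc (∑ k, ∑ i ∈ I k, (ℓ k i + D)) * ε ≤ ((∑ k, C₁ k) / ε + B₂ + B₃ * ε) * ε := by gcongr
      _ = (∑ k, C₁ k) + (B₂ * ε + B₃ * ε ^ 2) := h2
      _ ≤ (A / 2 + θ / 4) + θ / 4 := add_le_add hmain (hε₀' ε hε hεε₀)
      _ ≤ A / 2 + θ := by linarith
  refine ⟨c, ⟨hc1, hc2, (hc3.trans_lt ENNReal.ofReal_lt_top).ne, ?_⟩,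
    hc3.trans (ENNReal.ofReal_le_ofReal htotal)⟩
  intro y hy
  obtain ⟨k, hk⟩ := mem_iUnion.1 (hPcov hy)
  obtain ⟨i, hi, z, hz, hd⟩ := hcovk k y hk
  obtain ⟨t, ht, rfl⟩ := hc4 (mem_iUnion₂.2 ⟨⟨k, i⟩, by
    rw [Finset.mem_sigma]; exact ⟨Finset.mem_univ _, hi⟩, hz⟩)
  exact ⟨t, ht, hd⟩

end Pool.Agent.H886R2.Eps
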