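import Pool.Agent.H886R2.Eps.Smooth
import Pool.Agent.H886R2.Eps.Planar

/-!
# 1-Lipschitz walks
-/

set_option autoImplicit false

open MeasureTheory Set Metric Module Filter Topology
open scoped ENNReal NNReal

namespace Pool.Agent.H886R2.Eps

/-- there is a `1`-Lipschitz walk in `S` of duration `ℓ` from `x` to `y` which covers `T` -/
def Walk {X : Type*} [PseudoMetricSpace X] (S : Set X) (ℓ : ℝ) (x y : X) (T : Set X) : Prop :=
  0 ≤ ℓ ∧ ∃ f : ℝ → X, LipschitzWith 1 f ∧ (∀ t, f t ∈ S) ∧ f 0 = x ∧ f ℓ = y ∧ T ⊆ f '' Icc 0 ℓ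

section

variable {X : Type*} [PseudoMetricSpace X] {S : Set X}

lemma Walk.of_Icc {ℓ : ℝ} (hℓ : 0 ≤ ℓ) {f : ℝ → X} (hf : ∀ s ∈ Icc 0 ℓ, ∀ t ∈ Icc 0 ℓ,
    dist (f s) (f t) ≤ dist s t) (hS : ∀ t ∈ Icc 0 ℓ, f t ∈ S) :
    Walk S ℓ (f 0) (f ℓ) (f '' Icc 0 ℓ) := by
  have hcl : ∀ t : ℝ, max 0 (min ℓ t) ∈ Icc 0 ℓ := fun t =>
    ⟨le_max_left _ _, max_le hℓ (min_le_left _ _)⟩
  have hid : ∀ t ∈ Icc (0 : ℝ) ℓ, max 0 (min ℓ t) = t := by
    intro t ht
    rw [min_eq_right ht.2, max_eq_right ht.1]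
  refine ⟨hℓ, fun t => f (max 0 (min ℓ t)), ?_, fun t => hS _ (hcl t), ?_, ?_, ?_⟩
  · refine LipschitzWith.of_dist_le_mul fun s t => ?_
    rw [NNReal.coe_one, one_mul]
    refine (hf _ (hcl s) _ (hcl t)).trans ?_
    have h1 : LipschitzWith 1 fun t : ℝ => max 0 (min ℓ t) :=
      (LipschitzWith.id.const_min ℓ).const_max 0
    simpa using h1.dist_le_mul s t
  · change f (max 0 (min ℓ 0)) = f 0
    rw [hid 0 ⟨le_rfl, hℓ⟩]
  · change f (max 0 (min ℓ ℓ)) = f ℓ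
    rw [hid ℓ ⟨hℓ, le_rfl⟩]
  · rintro _ ⟨t, ht, rfl⟩
    exact ⟨t, ht, by change f (max 0 (min ℓ t)) = f t; rw [hid t ht]⟩

lemma Walk.mono {ℓ ℓ' : ℝ} {x y : X} {T T' : Set X} (h : Walk S ℓ x y T) (hℓ : ℓ ≤ ℓ')
    (hT : T' ⊆ T) : Walk S ℓ' x y T' := by
  obtain ⟨h0, f, hf, hS, hx, hy, hTf⟩ := h
  refine ⟨h0.trans hℓ, fun t => f (min ℓ t), ?_, fun t => hS _, ?_, ?_, ?_⟩
  · have : LipschitzWith 1 fun t : ℝ => min ℓ t := LipschitzWith.id.const_min ℓ
    have h2 := hf.comp this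
    rw [one_mul] at h2
    exact h2
  · change f (min ℓ 0) = x
    rw [min_eq_right h0, hx]
  · change f (min ℓ ℓ') = y
    rw [min_eq_left hℓ, hy]
  · intro z hz
    obtain ⟨t, ht, rfl⟩ := hTf (hT hz)
    exact ⟨t, ⟨ht.1, ht.2.trans hℓ⟩, by change f (min ℓ t) = f t; rw [min_eq_right ht.2]⟩

lemma Walk.subset {S' : Set X} {ℓ : ℝ} {x y : X} {T : Set X} (h : Walk S ℓ x y T)
    (hS : S ⊆ S') : Walk S' ℓ x y T := by
  obtain ⟨h0, f, hf, hS', hx, hy, hTf⟩ := h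
  exact ⟨h0, f, hf, fun t => hS (hS' t), hx, hy, hTf⟩

lemma Walk.append {ℓ ℓ' : ℝ} {x y z : X} {T T' : Set X} (h : Walk S ℓ x y T)
    (h' : Walk S ℓ' y z T') : Walk S (ℓ + ℓ') x z (T ∪ T') := by
  obtain ⟨h0, f, hf, hS, hx, hy, hTf⟩ := h
  obtain ⟨h0', g, hg, hS', hx', hy', hTg⟩ := h'
  have key : ∀ s t : ℝ, s ≤ ℓ → ℓ ≤ t → dist (f s) (g (t - ℓ)) ≤ dist s t := by
    intro s t hs ht
    have h1 : dist (f s) (f ℓ) ≤ dist s ℓ := by simpa using hf.dist_le_mul s ℓ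
    have h2 : dist (g 0) (g (t - ℓ)) ≤ dist 0 (t - ℓ) := by simpa using hg.dist_le_mul 0 (t - ℓ)
    have h3 : dist (f s) (g (t - ℓ)) ≤ dist (f s) (f ℓ) + dist (f ℓ) (g (t - ℓ)) :=
      dist_triangle _ _ _
    rw [hy, ← hx'] at h3
    rw [hy, ← hx'] at h1
    have e1 : dist s ℓ = ℓ - s := by rw [Real.dist_eq, abs_of_nonpos (by linarith)]; ring
    have e2 : dist 0 (t - ℓ) = t - ℓ := by
      rw [Real.dist_eq, abs_of_nonpos (by linarith)]; ring
    have e3 : dist s t = t - s := by rw [Real.dist_eq, abs_of_nonpos (by linarith)]; ring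
    rw [e3]
    rw [e1] at h1
    rw [e2] at h2
    linarith
  refine ⟨add_nonneg h0 h0', fun t => if t ≤ ℓ then f t else g (t - ℓ), ?_, ?_, ?_, ?_, ?_⟩
  · refine LipschitzWith.of_dist_le_mul fun s t => ?_
    rw [NNReal.coe_one, one_mul]
    by_cases hs : s ≤ ℓ <;> by_cases ht : t ≤ ℓ
    · simp only [hs, ht, if_true]
      simpa using hf.dist_le_mul s t
    · simp only [hs, ht, if_true, if_false]
      exact key s t hs (not_le.1 ht).le
    · simp only [hs, ht, if_true, if_false]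
      rw [dist_comm, dist_comm s t]
      exact key t s ht (not_le.1 hs).le
    · simp only [hs, ht, if_false]
      have := hg.dist_le_mul (s - ℓ) (t - ℓ)
      simpa using this
  · intro t
    by_cases ht : t ≤ ℓ
    · simp only [ht, if_true]
      exact hS t
    · simp only [ht, if_false]
      exact hS' _
  · simp only [h0, if_true]
    exact hx
  · by_cases h : ℓ + ℓ' ≤ ℓ
    · have h1 : ℓ' = 0 := le_antisymm (by linarith) h0'
      subst h1
      simp only [add_zero, le_refl, if_true]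
      rw [hy, ← hx', hy']
    · simp only [h, if_false, add_sub_cancel_left]
      exact hy'
  · rintro w (hw | hw)
    · obtain ⟨t, ht, rfl⟩ := hTf hw
      exact ⟨t, ⟨ht.1, by linarith [ht.2]⟩, by simp only [ht.2, if_true]⟩
    · obtain ⟨t, ht, rfl⟩ := hTg hw
      refine ⟨ℓ + t, ⟨by linarith [ht.1], by linarith [ht.2]⟩, ?_⟩
      by_cases h : ℓ + t ≤ ℓ
      · have h1 : t = 0 := le_antisymm (by linarith) ht.1
        subst h1
        simp only [add_zero, le_refl, if_true]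
        rw [hy, ← hx']
      · simp only [h, if_false, add_sub_cancel_left]

lemma Walk.map {Y : Type*} [PseudoMetricSpace Y] {S' : Set Y} {c : ℝ} (hc : 0 < c) {σ : X → Y}
    (hσ : ∀ p ∈ S, ∀ q ∈ S, dist (σ p) (σ q) ≤ c⁻¹ * dist p q) (hS' : ∀ p ∈ S, σ p ∈ S')
    {ℓ : ℝ} {x y : X} {T : Set X} (h : Walk S ℓ x y T) :
    Walk S' (c⁻¹ * ℓ) (σ x) (σ y) (σ '' T) := by
  obtain ⟨h0, f, hf, hS, hx, hy, hTf⟩ := h
  refine ⟨by positivity, fun t => σ (f (c * t)), ?_, fun t => hS' _ (hS _), ?_, ?_, ?_⟩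
  · refine LipschitzWith.of_dist_le_mul fun s t => ?_
    rw [NNReal.coe_one, one_mul]
    refine (hσ _ (hS _) _ (hS _)).trans ?_
    have h1 : dist (f (c * s)) (f (c * t)) ≤ dist (c * s) (c * t) := by
      simpa using hf.dist_le_mul (c * s) (c * t)
    have h2 : dist (c * s) (c * t) = c * dist s t := by
      rw [Real.dist_eq, Real.dist_eq, ← mul_sub, abs_mul, abs_of_pos hc]
    rw [h2] at h1
    calc c⁻¹ * dist (f (c * s)) (f (c * t)) ≤ c⁻¹ * (c * dist s t) := by gcongr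
      _ = dist s t := by field_simp
  · simp [hx]
  · have : c * (c⁻¹ * ℓ) = ℓ := by field_simp
    simp only [this, hy]
  · rintro _ ⟨z, hz, rfl⟩
    obtain ⟨t, ht, rfl⟩ := hTf hz
    refine ⟨c⁻¹ * t, ⟨by have := ht.1; positivity, by have := ht.2; gcongr⟩, ?_⟩
    have : c * (c⁻¹ * t) = t := by field_simp
    simp only [this]

end

/-- straight walks -/
lemma walk_segment {E : Type*} [NormedAddCommGroup E] [NormedSpace ℝ E] {C : Set E} (x y : E)
    (hC : segment ℝ x y ⊆ C) : Walk C (dist x y) x y (segment ℝ x y) := by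
  by_cases hxy : x = y
  · subst hxy
    refine ⟨dist_nonneg, fun _ => x, (LipschitzWith.const _).weaken zero_le_one, fun _ => hC (left_mem_segment ℝ x x),
      rfl, rfl, ?_⟩
    rw [segment_same, singleton_subset_iff]
    exact ⟨0, by simp, rfl⟩
  have hd : 0 < dist x y := dist_pos.2 hxy
  have h := Walk.of_Icc (S := C) (f := fun t : ℝ => AffineMap.lineMap x y (t / dist x y)) hd.le
    (by
      intro s _ t _
      rw [dist_lineMap_lineMap, Real.dist_eq, Real.dist_eq, ← sub_div, abs_div, abs_of_pos hd,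
        div_mul_cancel₀ _ hd.ne'])
    (by
      intro t ht
      apply hC
      rw [segment_eq_image_lineMap]
      exact ⟨t / dist x y, ⟨div_nonneg ht.1 hd.le, (div_le_one hd).2 ht.2⟩, rfl⟩)
  simp only [zero_div, AffineMap.lineMap_apply_zero, div_self hd.ne',
    AffineMap.lineMap_apply_one] at h
  refine h.mono le_rfl ?_
  intro z hz
  rw [segment_eq_image_lineMap] at hz
  obtain ⟨t, ht, rfl⟩ := hz
  exact ⟨t * dist x y, ⟨mul_nonneg ht.1 hd.le, mul_le_of_le_one_left hd.le ht.2⟩, by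
    simp only [mul_div_cancel_right₀ _ hd.ne']⟩

/-- a walk gives a curve -/
lemma Walk.exists_curve {S : Set E3} {ℓ : ℝ} {x y : E3} {T : Set E3} (h : Walk S ℓ x y T) :
    ∃ c : ℝ → E3, ContinuousOn c (Icc 0 1) ∧ MapsTo c (Icc 0 1) S ∧ c 0 = x ∧ c 1 = y ∧
      eVariationOn c (Icc 0 1) ≤ ENNReal.ofReal ℓ ∧ T ⊆ c '' Icc 0 1 := by
  obtain ⟨h0, f, hf, hS, hx, hy, hTf⟩ := h
  have hlip : LipschitzWith (Real.toNNReal ℓ) fun t : ℝ => f (ℓ * t) := by
    refine LipschitzWith.of_dist_le_mul fun s t => ?_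
    rw [Real.coe_toNNReal _ h0]
    have h1 : dist (f (ℓ * s)) (f (ℓ * t)) ≤ dist (ℓ * s) (ℓ * t) := by
      simpa using hf.dist_le_mul (ℓ * s) (ℓ * t)
    have h2 : dist (ℓ * s) (ℓ * t) = ℓ * dist s t := by
      rw [Real.dist_eq, Real.dist_eq, ← mul_sub, abs_mul, abs_of_nonneg h0]
    rwa [h2] at h1
  refine ⟨fun t => f (ℓ * t), hlip.continuous.continuousOn, fun t _ => hS _, by simpa using hx,
    by simpa using hy, ?_, ?_⟩
  · have h1 := hlip.lipschitzOnWith (s := univ).comp_eVariationOn_le (g := (id : ℝ → ℝ))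
      (s := Icc 0 1) (mapsTo_univ _ _)
    refine h1.trans ?_
    have h2 := (monotoneOn_id (s := Icc (0 : ℝ) 1)).eVariationOn_eq (a := 0) (b := 1) (by simp)
      (by simp)
    rw [inter_self] at h2
    rw [h2]
    simp [ENNReal.ofReal]
  · intro z hz
    obtain ⟨t, ht, rfl⟩ := hTf hz
    rcases h0.eq_or_lt with h | h
    · subst h
      exact ⟨0, by simp, by
        have : t = 0 := le_antisymm ht.2 ht.1
        simp [this]⟩
    · exact ⟨t / ℓ, ⟨div_nonneg ht.1 h0, (div_le_one h).2 ht.2⟩, by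
        simp only [mul_div_cancel₀ _ h.ne']⟩

lemma Walk.intrinsicDist_le {S : Set E3} {ℓ : ℝ} {x y : E3} {T : Set E3} (h : Walk S ℓ x y T) :
    intrinsicDist S x y ≤ ENNReal.ofReal ℓ := by
  obtain ⟨c, h1, h2, h3, h4, h5, -⟩ := h.exists_curve
  unfold intrinsicDist
  exact iInf₂_le_of_le c ⟨h1, h2, h3, h4⟩ h5

end Pool.Agent.H886R2.Eps
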