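import Pool.Agent.H886R2.Eps.Walk

/-!
# Zigzags in squares, and connections in the boundary of a convex body
-/

set_option autoImplicit false

open MeasureTheory Set Metric Module Filter Topology
open scoped ENNReal NNReal

namespace Pool.Agent.H886R2.Eps

/-- the closed square with lower left corner `(a, b)` and side `t` -/
def sq (a b t : ℝ) : Set ℂ := {z | z.re ∈ Icc a (a + t) ∧ z.im ∈ Icc b (b + t)}

lemma convex_sq (a b t : ℝ) : Convex ℝ (sq a b t) := by
  have h1 : Convex ℝ {z : ℂ | z.re ∈ Icc a (a + t)} :=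
    (convex_Icc a (a + t)).is_linear_preimage (f := Complex.re)
      ⟨fun x y => Complex.add_re x y, fun c x => by simp⟩
  have h2 : Convex ℝ {z : ℂ | z.im ∈ Icc b (b + t)} :=
    (convex_Icc b (b + t)).is_linear_preimage (f := Complex.im)
      ⟨fun x y => Complex.add_im x y, fun c x => by simp⟩
  exact h1.inter h2

lemma mem_horizontal_segment {a t y : ℝ} (ht : 0 ≤ t) {x : ℝ} (hx : x ∈ Icc a (a + t)) :
    (⟨x, y⟩ : ℂ) ∈ segment ℝ (⟨a, y⟩ : ℂ) ⟨a + t, y⟩ := by
  rcases ht.eq_or_lt with h | h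
  · subst h
    have : x = a := le_antisymm (by linarith [hx.2]) hx.1
    subst this
    exact left_mem_segment ℝ _ _
  · refine ⟨1 - (x - a) / t, (x - a) / t, ?_, ?_, by ring, ?_⟩
    · rw [sub_nonneg, div_le_one h]
      linarith [hx.2]
    · exact div_nonneg (by linarith [hx.1]) ht
    · apply Complex.ext
      · simp
        field_simp
        ring
      · simp
        ring

lemma dist_horizontal (a y t : ℝ) (ht : 0 ≤ t) : dist (⟨a, y⟩ : ℂ) ⟨a + t, y⟩ = t := by
  rw [Complex.dist_eq_re_im]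
  simp
  rw [Real.sqrt_sq ht]

lemma dist_vertical (a y y' : ℝ) : dist (⟨a, y⟩ : ℂ) ⟨a, y'⟩ = |y - y'| := by
  rw [Complex.dist_eq_re_im]
  simp
  rw [Real.sqrt_sq_eq_abs]

/-- a walk in a square which comes close to every point of the square -/
lemma zigzag (a b t h : ℝ) (ht : 0 < t) (hh : 0 < h) : ∃ (z w : ℂ) (T : Set ℂ),
    Walk (sq a b t) (t ^ 2 / h + 3 * t + 2 * h) z w T ∧
    ∀ q ∈ sq a b t, ∃ q' ∈ T, q' ∈ sq a b t ∧ dist q q' ≤ h / 2 := by
  set m := ⌈t / (2 * h)⌉₊ with hm
  have hm0 : 0 < m := Nat.ceil_pos.2 (by positivity)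
  have hm0' : (0 : ℝ) < m := by exact_mod_cast hm0
  have hm1 : t / (2 * h) ≤ m := Nat.le_ceil _
  have hm2 : (m : ℝ) < t / (2 * h) + 1 := Nat.ceil_lt_add_one (by positivity)
  set k := t / (2 * m) with hk
  have hk0 : 0 < k := by positivity
  have hkh : k ≤ h := by
    rw [hk, div_le_iff₀ (by positivity)]
    rw [div_le_iff₀ (by positivity)] at hm1
    linarith
  have hkt : 2 * m * k = t := by rw [hk]; field_simp
  -- the rows
  let y : ℕ → ℝ := fun j => b + (j + 1 / 2) * k
  have hy : ∀ j : ℕ, j < 2 * m → y j ∈ Icc b (b + t) := by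
    intro j hj
    have h1 : (j : ℝ) + 1 ≤ 2 * m := by exact_mod_cast hj
    constructor
    · simp only [y]
      have : 0 ≤ ((j : ℝ) + 1 / 2) * k := by positivity
      linarith
    · simp only [y]
      have : ((j : ℝ) + 1 / 2) * k ≤ 2 * m * k := by gcongr; linarith
      linarith
  have hpt : ∀ v ∈ Icc b (b + t), (⟨a, v⟩ : ℂ) ∈ sq a b t := fun v hv =>
    ⟨⟨le_rfl, by simp; linarith⟩, hv⟩
  have hpt' : ∀ v ∈ Icc b (b + t), (⟨a + t, v⟩ : ℂ) ∈ sq a b t := fun v hv =>
    ⟨⟨by simp; linarith, le_rfl⟩, hv⟩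
  let row : ℕ → Set ℂ := fun j => segment ℝ (⟨a, y j⟩ : ℂ) ⟨a + t, y j⟩
  have hind : ∀ i : ℕ, i ≤ m → ∃ v ∈ Icc b (b + t), |v - y (2 * i)| ≤ k ∧
      Walk (sq a b t) (i * (2 * t + 2 * k)) (⟨a, y 0⟩ : ℂ) ⟨a, v⟩ (⋃ j ∈ Finset.range (2 * i), row j) := by
    intro i
    induction i with
    | zero =>
      intro _
      refine ⟨y 0, hy 0 (by omega), by simp [hk0.le], ?_⟩
      have h1 := walk_segment (C := sq a b t) (⟨a, y 0⟩ : ℂ) ⟨a, y 0⟩ (by
        rw [segment_same, singleton_subset_iff]
        exact hpt _ (hy 0 (by omega)))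
      refine h1.mono (by simp) ?_
      simp
    | succ i ih =>
      intro hi
      obtain ⟨v, hv, hvy, hw⟩ := ih (by omega)
      have hy1 := hy (2 * i) (by omega)
      have hy2 := hy (2 * i + 1) (by omega)
      have w1 := walk_segment (C := sq a b t) (⟨a, v⟩ : ℂ) ⟨a, y (2 * i)⟩
        ((convex_sq a b t).segment_subset (hpt _ hv) (hpt _ hy1))
      have w2 := walk_segment (C := sq a b t) (⟨a, y (2 * i)⟩ : ℂ) ⟨a + t, y (2 * i)⟩
        ((convex_sq a b t).segment_subset (hpt _ hy1) (hpt' _ hy1))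
      have w3 := walk_segment (C := sq a b t) (⟨a + t, y (2 * i)⟩ : ℂ) ⟨a + t, y (2 * i + 1)⟩
        ((convex_sq a b t).segment_subset (hpt' _ hy1) (hpt' _ hy2))
      have w4 := walk_segment (C := sq a b t) (⟨a + t, y (2 * i + 1)⟩ : ℂ) ⟨a, y (2 * i + 1)⟩
        ((convex_sq a b t).segment_subset (hpt' _ hy2) (hpt _ hy2))
      have hw' := (((hw.append w1).append w2).append w3).append w4
      refine ⟨y (2 * i + 1), hy2, ?_, ?_⟩
      · simp only [y]
        push_cast
        rw [abs_le]
        constructor <;> nlinarith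
      · refine hw'.mono ?_ ?_
        · rw [dist_horizontal _ _ _ ht.le, dist_comm (⟨a + t, y (2 * i + 1)⟩ : ℂ),
            dist_horizontal _ _ _ ht.le, dist_vertical, dist_vertical]
          have e1 : |y (2 * i) - y (2 * i + 1)| = k := by
            simp only [y]
            push_cast
            rw [abs_of_nonpos (by nlinarith)]
            ring
          rw [e1]
          push_cast
          linarith
        · intro z hz
          obtain ⟨j, hj, hzj⟩ := mem_iUnion₂.1 hz
          rw [Finset.mem_range] at hj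
          by_cases h1 : j < 2 * i
          · exact Or.inl (Or.inl (Or.inl (Or.inl (mem_iUnion₂.2 ⟨j, Finset.mem_range.2 h1, hzj⟩))))
          · by_cases h2 : j = 2 * i
            · subst h2
              exact Or.inl (Or.inl (Or.inr hzj))
            · have h3 : j = 2 * i + 1 := by omega
              subst h3
              right
              rw [segment_symm]
              exact hzj
  obtain ⟨v, hv, -, hw⟩ := hind m le_rfl
  refine ⟨_, _, _, hw.mono ?_ subset_rfl, ?_⟩
  · calc (m : ℝ) * (2 * t + 2 * k) ≤ (t / (2 * h) + 1) * (2 * t + 2 * h) := by gcongr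
      _ = t ^ 2 / h + 3 * t + 2 * h := by field_simp; ring
  · intro q hq
    -- the row of `q`
    set j := min ⌊(q.im - b) / k⌋₊ (2 * m - 1) with hj
    have hjm : j < 2 * m := (min_le_right _ _).trans_lt (by omega)
    have hq0 : 0 ≤ q.im - b := by linarith [hq.2.1]
    have h1 : (j : ℝ) * k ≤ q.im - b := by
      have : (j : ℝ) ≤ (q.im - b) / k := by
        refine le_trans ?_ (Nat.floor_le (by positivity))
        exact_mod_cast min_le_left _ _
      rwa [le_div_iff₀ hk0] at this
    have h2 : q.im - b ≤ ((j : ℝ) + 1) * k := by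
      rcases le_total ⌊(q.im - b) / k⌋₊ (2 * m - 1) with h | h
      · have : (q.im - b) / k < ⌊(q.im - b) / k⌋₊ + 1 := Nat.lt_floor_add_one _
        rw [div_lt_iff₀ hk0] at this
        have e : j = ⌊(q.im - b) / k⌋₊ := by rw [hj, min_eq_left h]
        rw [e]
        exact this.le
      · have e : j = 2 * m - 1 := by rw [hj, min_eq_right h]
        have e2 : ((j : ℝ) + 1) = 2 * m := by
          have : j + 1 = 2 * m := by omega
          exact_mod_cast this
        rw [e2, hkt]
        linarith [hq.2.2]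
    refine ⟨⟨q.re, y j⟩, mem_iUnion₂.2 ⟨j, Finset.mem_range.2 hjm,
      mem_horizontal_segment ht.le hq.1⟩, ⟨hq.1, hy j hjm⟩, ?_⟩
    have e3 : q = ⟨q.re, q.im⟩ := rfl
    rw [e3, dist_vertical, abs_le]
    simp only [y]
    constructor <;> nlinarith

end Pool.Agent.H886R2.Eps
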